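import Mathlib

/-!
MP_2a8cc2_nt, points with one coordinate in a group: the estimate at one absolute value.
-/

set_option autoImplicit false

namespace Pool.Agent.Helper17.T4

open Finset

section

variable {M : Type} [Field M] (ν : AbsoluteValue M ℝ)

theorem abs_sub (a b : M) : ν (a - b) ≤ ν a + ν b := by
  rw [sub_eq_add_neg, ← ν.map_neg b]
  exact ν.add_le a (-b)

/-- large absolute values: `Y` is close to `T` -/
theorem abs_big {Y T x q bD R p p' G s : M} {D : ℕ} {Z : ℝ}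
    (hZ : 2 ≤ Z) (hx : x ≠ 0) (hq : q = x⁻¹) (hT : T = s * p) (hs : s ^ 2 = bD * x ^ D)
    (hp : p = 1 + q * p') (hpp : p ^ 2 = G + q ^ (D + 1) * R) (hY : Y ^ 2 = s ^ 2 * G)
    (hνx : 1 ≤ ν x) (hp' : ν q * ν p' ≤ 1 / 2) (hR : ν R ≤ Z) (hb : ν bD ≤ Z)
    (hb' : Z⁻¹ ≤ ν bD) (h2 : Z⁻¹ ≤ ν 2) (hsg : ν (Y - T) ≤ ν (Y + T)) :
    ν (Y - T) ≤ Z ^ 6 * ν q := by
  have hZ0 : 0 < Z := by linarith
  have hZi : 0 < Z⁻¹ := inv_pos.2 hZ0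
  have hZi1 : Z⁻¹ ≤ 1 := inv_le_one_of_one_le₀ (by linarith)
  have hZi2 : Z⁻¹ ≤ 1 / 2 := by
    rw [one_div]
    exact inv_anti₀ (by norm_num) hZ
  have hq0 : q ≠ 0 := by
    rw [hq]
    exact inv_ne_zero hx
  have hνq : 0 < ν q := ν.pos hq0
  -- the product of the two factors
  have e1 : (Y - T) * (Y + T) = -(bD * q * R) := by
    have e2 : x ^ D * q ^ (D + 1) = q := by
      rw [hq, pow_succ, ← mul_assoc, ← mul_pow, mul_inv_cancel₀ hx, one_pow, one_mul]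
    calc (Y - T) * (Y + T) = Y ^ 2 - s ^ 2 * p ^ 2 := by rw [hT]; ring
      _ = s ^ 2 * G - s ^ 2 * (G + q ^ (D + 1) * R) := by rw [hY, hpp]
      _ = -(bD * (x ^ D * q ^ (D + 1)) * R) := by rw [hs]; ring
      _ = _ := by rw [e2]
  have e3 : ν (Y - T) * ν (Y + T) ≤ Z ^ 2 * ν q := by
    rw [← map_mul, e1, ν.map_neg, map_mul, map_mul]
    have h3 := ν.nonneg R
    calc ν bD * ν q * ν R = (ν bD * ν R) * ν q := by ring
      _ ≤ (Z * Z) * ν q := mul_le_mul_of_nonneg_right (mul_le_mul hb hR h3 hZ0.le) hνq.le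
      _ = Z ^ 2 * ν q := by ring
  -- lower bound for `p`
  have e4 : 1 / 2 ≤ ν p := by
    have h5 : (1 : M) = p - q * p' := by
      rw [hp]
      ring
    have h6 : ν (1 : M) ≤ ν p + ν (q * p') := by
      rw [h5]
      exact abs_sub ν _ _
    rw [map_one, map_mul] at h6
    linarith
  -- lower bound for `s`
  have e5 : Z⁻¹ ≤ ν s := by
    by_contra hlt
    push Not at hlt
    have h7 : ν s ^ 2 < Z⁻¹ := by
      calc ν s ^ 2 = ν s * ν s := sq _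
        _ ≤ ν s * 1 := mul_le_mul_of_nonneg_left (by linarith) (ν.nonneg s)
        _ < Z⁻¹ := by rw [mul_one]; exact hlt
    have h8 : ν s ^ 2 = ν bD * ν x ^ D := by rw [← map_pow, hs, map_mul, map_pow]
    have h9 : (1 : ℝ) ≤ ν x ^ D := one_le_pow₀ hνx
    have h10 : Z⁻¹ ≤ ν bD * ν x ^ D := by
      calc Z⁻¹ = Z⁻¹ * 1 := (mul_one _).symm
        _ ≤ ν bD * ν x ^ D := mul_le_mul hb' h9 zero_le_one (ν.nonneg _)
    linarith
  have e6 : Z⁻¹ * Z⁻¹ ≤ ν T := by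
    rw [hT, map_mul]
    exact mul_le_mul e5 (hZi2.trans e4) hZi.le (ν.nonneg _)
  -- lower bound for the other factor
  have e7 : Z⁻¹ ^ 4 ≤ ν (Y + T) := by
    have h11 : (2 : M) * T = (Y + T) - (Y - T) := by ring
    have h12 : ν 2 * ν T ≤ ν (Y + T) + ν (Y - T) := by
      rw [← map_mul, h11]
      exact abs_sub ν _ _
    have h13 : Z⁻¹ * (Z⁻¹ * Z⁻¹) ≤ ν 2 * ν T := mul_le_mul h2 e6 (by positivity) (ν.nonneg _)
    have h14 : Z⁻¹ * (Z⁻¹ * Z⁻¹) ≤ 2 * ν (Y + T) := by linarith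
    have h15 : Z⁻¹ ^ 4 = Z⁻¹ * (Z⁻¹ * (Z⁻¹ * Z⁻¹)) := by ring
    rw [h15]
    have h16 : 0 ≤ Z⁻¹ * (Z⁻¹ * Z⁻¹) := by positivity
    nlinarith
  have e8 : ν (Y - T) * Z⁻¹ ^ 4 ≤ Z ^ 2 * ν q :=
    (mul_le_mul_of_nonneg_left e7 (ν.nonneg _)).trans e3
  have e9 : ν (Y - T) = ν (Y - T) * Z⁻¹ ^ 4 * Z ^ 4 := by
    rw [mul_assoc, ← mul_pow, inv_mul_cancel₀ hZ0.ne', one_pow, mul_one]
  rw [e9]
  calc ν (Y - T) * Z⁻¹ ^ 4 * Z ^ 4 ≤ Z ^ 2 * ν q * Z ^ 4 :=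
        mul_le_mul_of_nonneg_right e8 (by positivity)
    _ = Z ^ 6 * ν q := by ring

/-- the other sign -/
theorem abs_big' {Y T x q bD R p p' G s : M} {D : ℕ} {Z : ℝ}
    (hZ : 2 ≤ Z) (hx : x ≠ 0) (hq : q = x⁻¹) (hT : T = s * p) (hs : s ^ 2 = bD * x ^ D)
    (hp : p = 1 + q * p') (hpp : p ^ 2 = G + q ^ (D + 1) * R) (hY : Y ^ 2 = s ^ 2 * G)
    (hνx : 1 ≤ ν x) (hp' : ν q * ν p' ≤ 1 / 2) (hR : ν R ≤ Z) (hb : ν bD ≤ Z)
    (hb' : Z⁻¹ ≤ ν bD) (h2 : Z⁻¹ ≤ ν 2) (hsg : ν (Y + T) ≤ ν (Y - T)) :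
    ν (Y + T) ≤ Z ^ 6 * ν q := by
  have h := abs_big ν (Y := Y) (T := -T) (s := -s) hZ hx hq (by rw [hT]; ring)
    (by rw [neg_sq]; exact hs) hp hpp (by rw [neg_sq]; exact hY) hνx hp' hR hb hb' h2
    (by rw [sub_neg_eq_add, ← sub_eq_add_neg]; exact hsg)
  rwa [sub_neg_eq_add] at h

/-- large absolute values, even degree: `Y` is close to `T = β x ^ m p` -/
theorem abs_even {Y T x q bD R p p' G β : M} {m : ℕ} {Z : ℝ}
    (hZ : 2 ≤ Z) (hx : x ≠ 0) (hq : q = x⁻¹) (hT : T = β * x ^ m * p) (hβ : β ^ 2 = bD)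
    (hp : p = 1 + q * p') (hpp : p ^ 2 = G + q ^ (m + 1) * R)
    (hY : Y ^ 2 = bD * x ^ (2 * m) * G) (hp' : ν q * ν p' ≤ 1 / 2) (hR : ν R ≤ Z)
    (hb : ν bD ≤ Z) (hb' : Z⁻¹ ≤ ν bD) (h2 : Z⁻¹ ≤ ν 2) (hsg : ν (Y - T) ≤ ν (Y + T)) :
    ν (Y - T) ≤ Z ^ 6 * ν q := by
  have hZ0 : 0 < Z := by linarith
  have hZi : 0 < Z⁻¹ := inv_pos.2 hZ0
  have hZi1 : Z⁻¹ ≤ 1 := inv_le_one_of_one_le₀ (by linarith)
  have hZi2 : Z⁻¹ ≤ 1 / 2 := by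
    rw [one_div]
    exact inv_anti₀ (by norm_num) hZ
  have hq0 : q ≠ 0 := by
    rw [hq]
    exact inv_ne_zero hx
  have hνq : 0 < ν q := ν.pos hq0
  obtain ⟨W, hW⟩ : ∃ W : ℝ, W = ν x ^ m := ⟨_, rfl⟩
  have hW0 : 0 < W := by
    rw [hW]
    exact pow_pos (ν.pos hx) m
  -- the product of the two factors
  have e1 : (Y - T) * (Y + T) = -(bD * R * x ^ m * q) := by
    have e2 : x ^ (2 * m) * q ^ (m + 1) = x ^ m * q := by
      have e3 : x ^ m * q ^ m = 1 := by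
        rw [hq, ← mul_pow, mul_inv_cancel₀ hx, one_pow]
      calc x ^ (2 * m) * q ^ (m + 1) = x ^ m * (x ^ m * q ^ m) * q := by ring
        _ = x ^ m * q := by rw [e3, mul_one]
    calc (Y - T) * (Y + T) = Y ^ 2 - β ^ 2 * x ^ (2 * m) * p ^ 2 := by rw [hT]; ring
      _ = bD * x ^ (2 * m) * G - bD * x ^ (2 * m) * (G + q ^ (m + 1) * R) := by
        rw [hY, hpp, hβ]
      _ = -(bD * R * (x ^ (2 * m) * q ^ (m + 1))) := by ring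
      _ = _ := by
        rw [e2]
        ring
  have e3 : ν (Y - T) * ν (Y + T) ≤ Z ^ 2 * W * ν q := by
    rw [← map_mul, e1, ν.map_neg, map_mul, map_mul, map_mul, map_pow, ← hW]
    have h3 := ν.nonneg R
    calc ν bD * ν R * W * ν q ≤ (Z * Z) * W * ν q := by
          refine mul_le_mul_of_nonneg_right (mul_le_mul_of_nonneg_right
            (mul_le_mul hb hR h3 hZ0.le) hW0.le) hνq.le
      _ = Z ^ 2 * W * ν q := by ring
  -- lower bound for `p`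
  have e4 : 1 / 2 ≤ ν p := by
    have h5 : (1 : M) = p - q * p' := by
      rw [hp]
      ring
    have h6 : ν (1 : M) ≤ ν p + ν (q * p') := by
      rw [h5]
      exact abs_sub ν _ _
    rw [map_one, map_mul] at h6
    linarith
  -- lower bound for `β`
  have e5 : Z⁻¹ ≤ ν β := by
    by_contra hlt
    push Not at hlt
    have h7 : ν β ^ 2 < Z⁻¹ := by
      calc ν β ^ 2 = ν β * ν β := sq _
        _ ≤ ν β * 1 := mul_le_mul_of_nonneg_left (by linarith) (ν.nonneg β)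
        _ < Z⁻¹ := by rw [mul_one]; exact hlt
    rw [← map_pow, hβ] at h7
    linarith
  have e6 : Z⁻¹ * W * Z⁻¹ ≤ ν T := by
    rw [hT, map_mul, map_mul, map_pow, ← hW]
    exact mul_le_mul (mul_le_mul_of_nonneg_right e5 hW0.le) (hZi2.trans e4) hZi.le
      (mul_nonneg (ν.nonneg _) hW0.le)
  -- lower bound for the other factor
  have e7 : Z⁻¹ ^ 4 * W ≤ ν (Y + T) := by
    have h11 : (2 : M) * T = (Y + T) - (Y - T) := by ring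
    have h12 : ν 2 * ν T ≤ ν (Y + T) + ν (Y - T) := by
      rw [← map_mul, h11]
      exact abs_sub ν _ _
    have h13 : Z⁻¹ * (Z⁻¹ * W * Z⁻¹) ≤ ν 2 * ν T := mul_le_mul h2 e6 (by positivity) (ν.nonneg _)
    have h14 : Z⁻¹ * (Z⁻¹ * W * Z⁻¹) ≤ 2 * ν (Y + T) := by linarith
    have h15 : Z⁻¹ ^ 4 * W = Z⁻¹ * (Z⁻¹ * (Z⁻¹ * W * Z⁻¹)) := by ring
    rw [h15]
    have h16 : 0 ≤ Z⁻¹ * (Z⁻¹ * W * Z⁻¹) := by positivity
    nlinarith
  have e8 : ν (Y - T) * (Z⁻¹ ^ 4 * W) ≤ Z ^ 2 * W * ν q :=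
    (mul_le_mul_of_nonneg_left e7 (ν.nonneg _)).trans e3
  have e9 : (ν (Y - T) * Z⁻¹ ^ 4) * W ≤ (Z ^ 2 * ν q) * W := by
    calc (ν (Y - T) * Z⁻¹ ^ 4) * W = ν (Y - T) * (Z⁻¹ ^ 4 * W) := by ring
      _ ≤ Z ^ 2 * W * ν q := e8
      _ = (Z ^ 2 * ν q) * W := by ring
  have e10 : ν (Y - T) * Z⁻¹ ^ 4 ≤ Z ^ 2 * ν q := le_of_mul_le_mul_right e9 hW0
  have e11 : ν (Y - T) = ν (Y - T) * Z⁻¹ ^ 4 * Z ^ 4 := by
    rw [mul_assoc, ← mul_pow, inv_mul_cancel₀ hZ0.ne', one_pow, mul_one]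
  rw [e11]
  calc ν (Y - T) * Z⁻¹ ^ 4 * Z ^ 4 ≤ Z ^ 2 * ν q * Z ^ 4 :=
        mul_le_mul_of_nonneg_right e10 (by positivity)
    _ = Z ^ 6 * ν q := by ring

/-- the other sign -/
theorem abs_even' {Y T x q bD R p p' G β : M} {m : ℕ} {Z : ℝ}
    (hZ : 2 ≤ Z) (hx : x ≠ 0) (hq : q = x⁻¹) (hT : T = β * x ^ m * p) (hβ : β ^ 2 = bD)
    (hp : p = 1 + q * p') (hpp : p ^ 2 = G + q ^ (m + 1) * R)
    (hY : Y ^ 2 = bD * x ^ (2 * m) * G) (hp' : ν q * ν p' ≤ 1 / 2) (hR : ν R ≤ Z)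
    (hb : ν bD ≤ Z) (hb' : Z⁻¹ ≤ ν bD) (h2 : Z⁻¹ ≤ ν 2) (hsg : ν (Y + T) ≤ ν (Y - T)) :
    ν (Y + T) ≤ Z ^ 6 * ν q := by
  have h := abs_even ν (Y := Y) (T := -T) (β := -β) hZ hx hq (by rw [hT]; ring)
    (by rw [neg_sq]; exact hβ) hp hpp hY hp' hR hb hb' h2
    (by rw [sub_neg_eq_add, ← sub_eq_add_neg]; exact hsg)
  rwa [sub_neg_eq_add] at h

/-- moderate absolute values: bound for `Y` -/
theorem abs_small {Y x : M} {D : ℕ} {b : ℕ → M} {Z W : ℝ} (hZ : 1 ≤ Z) (hW : 1 ≤ W)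
    (hD : ((D + 1 : ℕ) : ℝ) ≤ Z)
    (hY : Y ^ 2 = ∑ i ∈ range (D + 1), b i * x ^ i) (hb : ∀ i ∈ range (D + 1), ν (b i) ≤ Z)
    (hx : ν x ≤ W) : ν Y ≤ Z ^ 2 * W ^ D := by
  have hZ0 : 0 ≤ Z := by linarith
  have hW0 : 0 ≤ W := by linarith
  have h1 : ν Y ^ 2 ≤ Z ^ 2 * W ^ D := by
    rw [← map_pow, hY]
    calc ν (∑ i ∈ range (D + 1), b i * x ^ i) ≤ ∑ i ∈ range (D + 1), ν (b i * x ^ i) :=
          ν.sum_le _ _
      _ ≤ ∑ _i ∈ range (D + 1), Z * W ^ D := by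
          refine Finset.sum_le_sum fun i hi => ?_
          rw [map_mul, map_pow]
          have h2 : ν x ^ i ≤ W ^ D := by
            calc ν x ^ i ≤ W ^ i := pow_le_pow_left₀ (ν.nonneg _) hx i
              _ ≤ W ^ D := pow_le_pow_right₀ hW (by have := Finset.mem_range.1 hi; omega)
          exact mul_le_mul (hb i hi) h2 (pow_nonneg (ν.nonneg _) _) hZ0
      _ = ((D + 1 : ℕ) : ℝ) * (Z * W ^ D) := by rw [sum_const, card_range, nsmul_eq_mul]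
      _ ≤ Z * (Z * W ^ D) := mul_le_mul_of_nonneg_right hD (by positivity)
      _ = Z ^ 2 * W ^ D := by ring
  have h3 : (1 : ℝ) ≤ Z ^ 2 * W ^ D := by
    have h4 : (1 : ℝ) ≤ Z ^ 2 := one_le_pow₀ hZ
    have h5 : (1 : ℝ) ≤ W ^ D := one_le_pow₀ hW
    nlinarith
  by_contra hlt
  push Not at hlt
  have h6 : Z ^ 2 * W ^ D < ν Y ^ 2 := by
    calc Z ^ 2 * W ^ D < ν Y := hlt
      _ = ν Y * 1 := (mul_one _).symm
      _ ≤ ν Y * ν Y := mul_le_mul_of_nonneg_left (by linarith) (ν.nonneg _)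
      _ = ν Y ^ 2 := (sq _).symm
  linarith

end

end Pool.Agent.Helper17.T4
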