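import Pool.Agent.Helper17.T4.Fin
import Pool.Agent.Helper9.MTK.Asm
import Pool.Agent.Helper97.SUBW.SPW

/-! MP_2a8cc2_nt: assembly. -/

set_option autoImplicit false

namespace Pool.Agent.Helper17.T4

open Pool.Agent.Helper70.SUB Pool.Agent.Helper77.SUBK Pool.Agent.Helper70.SUBW
  Pool.Agent.Helper9.MTK

/-- the result -/
theorem t5_ : ST_T5 :=
  t5 w_slw (Pool.Agent.Helper97.SUBW.st_SPW w_slw k_prk k_svb) k_svb k_prk k_den a_av w_subtu
    k_pfx st_HSL st_HBM st_HC (indk_ w_subtu) geol_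

end Pool.Agent.Helper17.T4
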