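import Mathlib

/-!
MP_2a8cc2_nt: polynomials in `q` with coefficients in a subring, and approximate square roots.
-/

set_option autoImplicit false

namespace Pool.Agent.Helper17.T4

open Finset

section

variable {R0 : Type} [CommRing R0]

/-- polynomials in `q` with coefficients in `A` -/
inductive Pol (A : Subring R0) (q : R0) : R0 → Prop
  | base (z : R0) : z ∈ A → Pol A q z
  | step (z w : R0) : z ∈ A → Pol A q w → Pol A q (z + q * w)

variable {A : Subring R0} {q : R0}

theorem Pol.zero : Pol A q 0 := Pol.base _ A.zero_mem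

theorem Pol.qmul {z : R0} (hz : Pol A q z) : Pol A q (q * z) := by
  have h := Pol.step 0 z A.zero_mem hz
  rwa [zero_add] at h

theorem Pol.addA {z a : R0} (hz : Pol A q z) (ha : a ∈ A) : Pol A q (a + z) := by
  cases hz with
  | base z hz => exact Pol.base _ (A.add_mem ha hz)
  | step z w hz hw =>
    rw [← add_assoc]
    exact Pol.step _ _ (A.add_mem ha hz) hw

theorem Pol.add {z w : R0} (hz : Pol A q z) (hw : Pol A q w) : Pol A q (z + w) := by
  induction hz generalizing w with
  | base z hz => exact hw.addA hz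
  | step z z' hz hz' ih =>
    cases hw with
    | base w hw =>
      rw [add_comm]
      exact (Pol.step z z' hz hz').addA hw
    | step w w' hw hw' =>
      have h : z + q * z' + (w + q * w') = (z + w) + q * (z' + w') := by ring
      rw [h]
      exact Pol.step _ _ (A.add_mem hz hw) (ih hw')

theorem Pol.smul {z a : R0} (ha : a ∈ A) (hz : Pol A q z) : Pol A q (a * z) := by
  induction hz with
  | base z hz => exact Pol.base _ (A.mul_mem ha hz)
  | step z w hz _ ih =>
    have h : a * (z + q * w) = a * z + q * (a * w) := by ring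
    rw [h]
    exact Pol.step _ _ (A.mul_mem ha hz) ih

theorem Pol.neg {z : R0} (hz : Pol A q z) : Pol A q (-z) := by
  have h := Pol.smul (A.neg_mem A.one_mem) hz
  rwa [neg_one_mul] at h

theorem Pol.qpow (k : ℕ) {z : R0} (hz : Pol A q z) : Pol A q (q ^ k * z) := by
  induction k with
  | zero => rwa [pow_zero, one_mul]
  | succ k ih =>
    rw [pow_succ', mul_assoc]
    exact ih.qmul

theorem Pol.split {z : R0} (hz : Pol A q z) : ∃ a ∈ A, ∃ w, Pol A q w ∧ z = a + q * w := by
  cases hz with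
  | base z hz => exact ⟨z, hz, 0, Pol.zero, by rw [mul_zero, add_zero]⟩
  | step z w hz hw => exact ⟨z, hz, w, hw, rfl⟩

theorem Pol.sum (c : ℕ → R0) (hc : ∀ i, c i ∈ A) (N : ℕ) :
    Pol A q (∑ i ∈ range N, c i * q ^ i) := by
  induction N with
  | zero =>
    rw [sum_range_zero]
    exact Pol.zero
  | succ N ih =>
    rw [sum_range_succ]
    refine ih.add ?_
    rw [mul_comm]
    exact (Pol.base _ (hc N)).qpow N

/-- approximate square roots -/
theorem Pol.sqrt {G h : R0} (hh : h ∈ A) (h2 : 2 * h = 1) {G' : R0} (hG' : Pol A q G')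
    (hG : G = 1 + q * G') (K : ℕ) :
    ∃ (e : ℕ → R0) (p R : R0), (∀ i, e i ∈ A) ∧ 1 + q * p = ∑ i ∈ range (K + 1), e i * q ^ i ∧
      Pol A q p ∧ Pol A q R ∧ (1 + q * p) ^ 2 = G + q ^ (K + 1) * R := by
  induction K with
  | zero =>
    refine ⟨fun _ => 1, 0, -G', fun _ => A.one_mem, ?_, Pol.zero, hG'.neg, ?_⟩
    · rw [sum_range_one]
      ring
    · rw [hG]
      ring
  | succ K ih =>
    obtain ⟨f, p, R, hf, hfp, hp, hR, h1⟩ := ih
    obtain ⟨a, ha, R', hR', h3⟩ := hR.split
    obtain ⟨e, he⟩ : ∃ e : R0, e = -(h * a) := ⟨_, rfl⟩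
    have heA : e ∈ A := by
      rw [he]
      exact A.neg_mem (A.mul_mem hh ha)
    have he2 : a + 2 * e = 0 := by
      rw [he]
      linear_combination (-a) * h2
    obtain ⟨f', hf'⟩ : ∃ f' : ℕ → R0, ∀ i, f' i = if i = K + 1 then e else f i :=
      ⟨_, fun _ => rfl⟩
    refine ⟨f', p + e * q ^ K, R' + 2 * e * p + e ^ 2 * q ^ K, fun i => ?_, ?_, ?_, ?_, ?_⟩
    · rw [hf']
      split_ifs
      · exact heA
      · exact hf i
    · have h4 : ∑ i ∈ range (K + 1), f' i * q ^ i = ∑ i ∈ range (K + 1), f i * q ^ i := by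
        refine sum_congr rfl fun i hi => ?_
        rw [hf', if_neg (fun h5 => by
          rw [h5] at hi
          exact absurd (mem_range.1 hi) (lt_irrefl _))]
      rw [sum_range_succ, h4, ← hfp, hf', if_pos rfl]
      ring
    · refine hp.add ?_
      rw [mul_comm]
      exact (Pol.base _ heA).qpow K
    · refine (hR'.add ?_).add ?_
      · rw [mul_assoc, two_mul]
        exact (Pol.smul heA hp).add (Pol.smul heA hp)
      · rw [mul_comm]
        exact (Pol.base _ (A.pow_mem heA 2)).qpow K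
    · linear_combination h1 + q ^ (K + 1) * h3 + q ^ (K + 1) * he2

theorem Pol.sqrt' {h : R0} (hh : h ∈ A) (h2 : 2 * h = 1) (f : ℕ → R0) (hf : ∀ i, f i ∈ A)
    (hf0 : f 0 = 1) (D K : ℕ) :
    ∃ (e : ℕ → R0) (p R : R0), (∀ i, e i ∈ A) ∧ 1 + q * p = ∑ i ∈ range (K + 1), e i * q ^ i ∧
      Pol A q p ∧ Pol A q R ∧
      (1 + q * p) ^ 2 = ∑ i ∈ range (D + 1), f i * q ^ i + q ^ (K + 1) * R := by
  refine Pol.sqrt hh h2 (Pol.sum (fun i => f (i + 1)) (fun i => hf _) D) ?_ K
  rw [sum_range_succ', pow_zero, mul_one, hf0, add_comm, mul_sum]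
  congr 1
  refine sum_congr rfl fun i _ => ?_
  ring

end

end Pool.Agent.Helper17.T4
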