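import Pool.Agent.Helper9.MTK.Sheet
import Pool.Agent.Helper17.T4.Abs
import Pool.Agent.Helper17.T4.Pol
import Pool.Agent.Helper8.SUBK.U2K

/-!
MP_2a8cc2_nt: the ring of slow sequences, polynomials in `q` with slow coefficients.
-/

set_option autoImplicit false

namespace Pool.Agent.Helper17.T4

open Filter Finset Pool.Agent.Helper70.SUB Pool.Agent.Helper77.SUBK
  Pool.Agent.Helper70.SUBW

section

variable {M : Type} [Field M] [NumberField M] {S : Finset ℕ}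

/-- the absolute value at the place `(v, σ)` -/
noncomputable def avf (P : PF S M) {v : Option ℕ} (hv : v ∈ plc S) (σ : M ≃ₐ[ℚ] M) :
    AbsoluteValue M ℝ where
  toFun z := P.nv v (σ z)
  map_mul' a b := by rw [map_mul]; exact P.mul v hv _ _
  nonneg' z := P.nn _ _
  eq_zero' z := ⟨fun h => (map_eq_zero_iff σ σ.injective).1 (P.eq_zero hv h),
    fun h => by rw [h, map_zero, P.nz]⟩
  add_le' a b := by rw [map_add]; exact P.add v hv _ _

theorem avf_apply (P : PF S M) {v : Option ℕ} (hv : v ∈ plc S) (σ : M ≃ₐ[ℚ] M) (z : M) :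
    avf P hv σ z = P.nv v (σ z) := rfl

end

section

variable {M : Type} [Field M] [NumberField M] [IsGalois ℚ M] {S : Finset ℕ} {P : PF S M}
  {φ : Ultrafilter ℕ} {X : ℕ → ℝ}

/-- the ring of slow sequences -/
def slA (hSLW : ST_SLW) (hS : ∀ p ∈ S, p.Prime) (hX : Tendsto X (φ : Filter ℕ) atTop)
    (P : PF S M) : Subring (ℕ → M) where
  carrier := {z | Slw P φ X z}
  mul_mem' := fun {a b} ha hb => ((hSLW M S P φ X hS hX).2.1 a b ha hb).2
  one_mem' := (hSLW M S P φ X hS hX).1 1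
  add_mem' := fun {a b} ha hb => ((hSLW M S P φ X hS hX).2.1 a b ha hb).1
  zero_mem' := (hSLW M S P φ X hS hX).1 0
  neg_mem' := fun {a} ha => by
    have h := ((hSLW M S P φ X hS hX).2.1 _ a ((hSLW M S P φ X hS hX).1 (-1)) ha).2
    have h1 : (fun j => (-1 : M) * a j) = -a := by
      funext j
      rw [Pi.neg_apply, neg_one_mul]
    rw [h1] at h
    exact h

theorem mem_slA {hSLW : ST_SLW} {hS : ∀ p ∈ S, p.Prime}
    {hX : Tendsto X (φ : Filter ℕ) atTop} {z : ℕ → M} :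
    z ∈ slA hSLW hS hX P ↔ Slw P φ X z := Iff.rfl

/-- size of polynomials in `q` with slow coefficients at places where `q` is small -/
theorem pol_bd {hSLW : ST_SLW} {hS : ∀ p ∈ S, p.Prime}
    {hX : Tendsto X (φ : Filter ℕ) atTop} {q z : ℕ → M} (hz : Pol (slA hSLW hS hX P) q z)
    {v : Option ℕ} (hv : v ∈ plc S) (σ : M ≃ₐ[ℚ] M)
    (hq : ∀ᶠ j in (φ : Filter ℕ), P.nv v (σ (q j)) ≤ 1) :
    ∀ ε : ℝ, 0 < ε → ∀ᶠ j in (φ : Filter ℕ), P.nv v (σ (z j)) ≤ X j ^ ε := by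
  obtain ⟨-, -, -, -, s5, -⟩ := hSLW M S P φ X hS hX
  induction hz with
  | base z hz =>
    intro ε hε
    exact s5 z hz v hv σ ε hε
  | step z w hz _ ih =>
    intro ε hε
    have hX2 : ∀ᶠ j in (φ : Filter ℕ), (2 : ℝ) ≤ X j ^ (ε / 2) :=
      ((tendsto_rpow_atTop (half_pos hε)).comp hX).eventually_ge_atTop 2
    filter_upwards [s5 z hz v hv σ (ε / 2) (half_pos hε), ih (ε / 2) (half_pos hε), hq, hX2,
      hX.eventually_gt_atTop 0] with j h1 h2 h3 h4 h5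
    rw [Pi.add_apply, Pi.mul_apply, map_add, map_mul]
    have e1 : X j ^ ε = X j ^ (ε / 2) * X j ^ (ε / 2) := by
      rw [← Real.rpow_add h5]
      congr 1
      ring
    calc P.nv v (σ (z j) + σ (q j) * σ (w j)) ≤ P.nv v (σ (z j)) + P.nv v (σ (q j) * σ (w j)) :=
          P.add v hv _ _
      _ = P.nv v (σ (z j)) + P.nv v (σ (q j)) * P.nv v (σ (w j)) := by rw [P.mul v hv]
      _ ≤ X j ^ (ε / 2) + 1 * X j ^ (ε / 2) :=
          add_le_add h1 (mul_le_mul h3 h2 (P.nn _ _) zero_le_one)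
      _ = 2 * X j ^ (ε / 2) := by ring
      _ ≤ X j ^ (ε / 2) * X j ^ (ε / 2) :=
          mul_le_mul_of_nonneg_right h4 (Real.rpow_nonneg h5.le _)
      _ = X j ^ ε := e1.symm

omit [IsGalois ℚ M] in
/-- a product over all places: a bound which is much smaller at one place -/
theorem prod_places (g : Option ℕ → (M ≃ₐ[ℚ] M) → ℝ) (B r : ℝ) (hB : 0 < B)
    (v₀ : Option ℕ) (hv₀ : v₀ ∈ plc S) (σ₀ : M ≃ₐ[ℚ] M)
    (h0 : ∀ v ∈ plc S, ∀ σ, 0 ≤ g v σ) (h1 : ∀ v ∈ plc S, ∀ σ, g v σ ≤ B)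
    (h2 : g v₀ σ₀ ≤ B * r) :
    ∏ v ∈ plc S, ∏ σ : M ≃ₐ[ℚ] M, g v σ ≤
      B ^ ((plc S).card * Fintype.card (M ≃ₐ[ℚ] M)) * r := by
  classical
  have e1 : ∏ v ∈ plc S, ∏ σ : M ≃ₐ[ℚ] M, g v σ =
      B ^ ((plc S).card * Fintype.card (M ≃ₐ[ℚ] M)) *
        ∏ v ∈ plc S, ∏ σ : M ≃ₐ[ℚ] M, g v σ / B := by
    have e2 : B ^ ((plc S).card * Fintype.card (M ≃ₐ[ℚ] M)) =
        ∏ v ∈ plc S, ∏ σ : M ≃ₐ[ℚ] M, B := by
      rw [Finset.prod_const, Finset.prod_const, Finset.card_univ, ← pow_mul]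
      congr 1
      ring
    rw [e2, ← Finset.prod_mul_distrib]
    refine Finset.prod_congr rfl fun v _ => ?_
    rw [← Finset.prod_mul_distrib]
    refine Finset.prod_congr rfl fun σ _ => ?_
    rw [mul_div_cancel₀ _ hB.ne']
  rw [e1]
  refine mul_le_mul_of_nonneg_left ?_ (by positivity)
  have hf0 : ∀ v ∈ plc S, ∀ σ, 0 ≤ g v σ / B := fun v hv σ => div_nonneg (h0 v hv σ) hB.le
  have hf1 : ∀ v ∈ plc S, ∀ σ, g v σ / B ≤ 1 := fun v hv σ => by
    rw [div_le_one hB]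
    exact h1 v hv σ
  have h3 := Pool.Agent.Helper8.SUBK.prod_le_mem (plc S) (fun v => ∏ σ : M ≃ₐ[ℚ] M, g v σ / B)
    (fun v hv => Finset.prod_nonneg fun σ _ => hf0 v hv σ)
    (fun v hv => Finset.prod_le_one (fun σ _ => hf0 v hv σ) (fun σ _ => hf1 v hv σ)) v₀ hv₀
  have h4 := Pool.Agent.Helper8.SUBK.prod_le_mem (Finset.univ : Finset (M ≃ₐ[ℚ] M))
    (fun σ => g v₀ σ / B) (fun σ _ => hf0 v₀ hv₀ σ) (fun σ _ => hf1 v₀ hv₀ σ) σ₀
    (Finset.mem_univ _)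
  refine h3.trans (h4.trans ?_)
  rw [div_le_iff₀ hB, mul_comm]
  exact h2

end

end Pool.Agent.Helper17.T4
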