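import Pool.Agent.Helper9.MTK.IndK
import Pool.Agent.Helper17.T4.Slow

/-!
MP_2a8cc2_nt: grouping of the terms of a sum of S-units with slow coefficients; a sum of S-units
with moderate height is a sum of moderate S-units.
-/

set_option autoImplicit false

namespace Pool.Agent.Helper17.T4

open Filter Finset Pool.Agent.Helper70.SUB Pool.Agent.Helper77.SUBK
  Pool.Agent.Helper70.SUBW Pool.Agent.Helper9.MTK Height

section

variable {M : Type} [Field M] [NumberField M] [IsGalois ℚ M] {S : Finset ℕ} {P : PF S M}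
  {φ : Ultrafilter ℕ} {X : ℕ → ℝ}

/-- grouping of the terms by slow quotients -/
theorem cluster (hSLW : ST_SLW) (hS : ∀ p ∈ S, p.Prime)
    (hX : Tendsto X (φ : Filter ℕ) atTop) {ι : Type} [Fintype ι] (c u : ι → ℕ → M)
    (hc : ∀ i, Slw P φ X (c i)) (hu : ∀ i, ∀ᶠ j in (φ : Filter ℕ), SV S (u i j)) :
    ∃ (Q : Type) (_ : Fintype Q) (_ : DecidableEq Q) (π : ι → Q) (o : Q → ι) (C : Q → ℕ → M),
      (∀ q, π (o q) = q) ∧ (∀ i i', π i = π i' ↔ Slw P φ X (fun j => u i j / u i' j)) ∧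
      (∀ q, Slw P φ X (C q)) ∧ ∀ᶠ j in (φ : Filter ℕ), ∀ q, C q j * u (o q) j =
        ∑ i, if π i = q then c i j * u i j else 0 := by
  classical
  obtain ⟨t1, t2, t3, -, -, -, t7, -, -, -, t11, -⟩ := hSLW M S P φ X hS hX
  have hune : ∀ᶠ j in (φ : Filter ℕ), ∀ i, u i j ≠ 0 :=
    Filter.eventually_all.2 fun i => (hu i).mono fun j hj => hj.1
  have hrefl : ∀ i, Slw P φ X (fun j => u i j / u i j) := by
    intro i
    refine t7 _ _ ?_ (t1 1)
    filter_upwards [hune] with j hj
    rw [div_self (hj i)]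
  have hsymm : ∀ i i', Slw P φ X (fun j => u i j / u i' j) →
      Slw P φ X (fun j => u i' j / u i j) := by
    intro i i' h
    have h1 := t3 _ h
    simpa only [inv_div] using h1
  have htrans : ∀ i i' i'', Slw P φ X (fun j => u i j / u i' j) →
      Slw P φ X (fun j => u i' j / u i'' j) → Slw P φ X (fun j => u i j / u i'' j) := by
    intro i i' i'' h h'
    refine t7 _ _ ?_ (t2 _ _ h h').2
    filter_upwards [hune] with j hj
    rw [div_mul_div_cancel₀ (hj i')]
  let st : Setoid ι :=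
    { r := fun i i' => Slw P φ X (fun j => u i j / u i' j)
      iseqv := ⟨hrefl, fun {i i'} h => hsymm i i' h, fun {i i' i''} h h' => htrans i i' i'' h h'⟩ }
  have hst : ∀ i i' : ι, (Quotient.mk st i = Quotient.mk st i') →
      Slw P φ X (fun j => u i j / u i' j) := fun i i' h => Quotient.exact h
  obtain ⟨ou, hou⟩ : ∃ ou : Quotient st → ι, ∀ q, Quotient.mk st (ou q) = q :=
    ⟨Quotient.out, fun q => Quotient.out_eq q⟩
  refine ⟨Quotient st, inferInstance, inferInstance, fun i => Quotient.mk st i, ou, fun q j =>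
      ∑ i, if Quotient.mk st i = q then c i j * (u i j / u (ou q) j) else 0, hou,
      fun i i' => ⟨hst i i', fun h => Quotient.sound h⟩, fun q => ?_, ?_⟩
  · refine (t11 ι Finset.univ (fun i j =>
      if Quotient.mk st i = q then c i j * (u i j / u (ou q) j) else 0) fun i _ => ?_).1
    by_cases h : Quotient.mk st i = q
    · simp only [h, if_true]
      exact (t2 _ _ (hc i) (hst i (ou q) (by rw [hou, h]))).2
    · simp only [h, if_false]
      exact t1 0
  · filter_upwards [hune] with j hj q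
    rw [Finset.sum_mul]
    refine Finset.sum_congr rfl fun i _ => ?_
    by_cases h : Quotient.mk st i = q
    · simp only [h, if_true]
      rw [mul_assoc, div_mul_cancel₀ _ (hj _)]
    · simp only [h, if_false, zero_mul]

open Classical in
omit [NumberField M] [IsGalois ℚ M] in
/-- dropping the terms with vanishing coefficients -/
theorem drop_zero {Q : Type} [Fintype Q] (C V : Q → ℕ → M) :
    ∀ᶠ j in (φ : Filter ℕ), ∑ q : {q : Q // ¬ ∀ᶠ j in (φ : Filter ℕ), C q j = 0},
      C q.1 j * V q.1 j = ∑ q, C q j * V q j := by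
  have h1 : ∀ᶠ j in (φ : Filter ℕ), ∀ q : Q, (∀ᶠ j in (φ : Filter ℕ), C q j = 0) → C q j = 0 := by
    rw [Filter.eventually_all]
    intro q
    by_cases hq : ∀ᶠ j in (φ : Filter ℕ), C q j = 0
    · exact hq.mono fun j hj _ => hj
    · exact Filter.Eventually.of_forall fun j hj => absurd hj hq
  filter_upwards [h1] with j hj
  have h3 : ∑ q ∈ univ.filter (fun q : Q => ¬ ∀ᶠ j in (φ : Filter ℕ), C q j = 0),
      C q j * V q j = ∑ q, C q j * V q j := by
    refine Finset.sum_filter_of_ne fun q _ hq hq' => ?_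
    exact hq (by rw [hj q hq', zero_mul])
  have h4 : ∑ q ∈ univ.filter (fun q : Q => ¬ ∀ᶠ j in (φ : Filter ℕ), C q j = 0),
      C q j * V q j = ∑ q : {q : Q // ¬ ∀ᶠ j in (φ : Filter ℕ), C q j = 0}, C q.1 j * V q.1 j :=
    Finset.sum_subtype (p := fun q : Q => ¬ ∀ᶠ j in (φ : Filter ℕ), C q j = 0) _
      (fun q => by simp) _
  exact h4.symm.trans h3

/-- in a vanishing sum the terms of every class have sum zero -/
theorem cluster_zero (hSLW : ST_SLW) (hINDK : ST_INDK) (hS : ∀ p ∈ S, p.Prime)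
    (hX : Tendsto X (φ : Filter ℕ) atTop) {ι : Type} [Fintype ι] (c u : ι → ℕ → M)
    (hc : ∀ i, Slw P φ X (c i)) (hu : ∀ i, ∀ᶠ j in (φ : Filter ℕ), SV S (u i j))
    (h0 : ∀ᶠ j in (φ : Filter ℕ), ∑ i, c i j * u i j = 0) (i₀ : ι) :
    ∃ T : Finset ι, (∀ i, i ∈ T ↔ Slw P φ X (fun j => u i j / u i₀ j)) ∧
      ∀ᶠ j in (φ : Filter ℕ), ∑ i ∈ T, c i j * u i j = 0 := by
  classical
  obtain ⟨Q, _, _, π, o, C, ho, hπ, hC, hsum⟩ := cluster hSLW hS hX c u hc hu
  have hC0 : ∀ᶠ j in (φ : Filter ℕ), C (π i₀) j = 0 := by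
    by_contra hcon
    have h1 := hINDK M S P φ X {q : Q // ¬ ∀ᶠ j in (φ : Filter ℕ), C q j = 0} (fun q => C q.1)
      (fun q => u (o q.1)) hS hX ⟨⟨π i₀, hcon⟩⟩ (fun q => hC q.1)
      (fun q => Ultrafilter.eventually_not.2 q.2) (fun q => hu _) (fun q q' h h' => by
        apply h
        apply Subtype.ext
        have h2 := (hπ _ _).2 h'
        rwa [ho, ho] at h2)
    obtain ⟨j, ⟨⟨hj1, hj2⟩, hj3⟩, hj4⟩ :=
      (((h1.and (drop_zero C (fun q => u (o q)))).and hsum).and h0).exists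
    apply hj1
    rw [hj2, Finset.sum_congr rfl fun q _ => hj3 q, Finset.sum_comm]
    refine Eq.trans (Finset.sum_congr rfl fun i _ => ?_) hj4
    rw [Finset.sum_ite_eq, if_pos (Finset.mem_univ _)]
  refine ⟨univ.filter fun i => π i = π i₀, fun i => ?_, ?_⟩
  · rw [Finset.mem_filter, ← hπ]
    exact ⟨fun h => h.2, fun h => ⟨Finset.mem_univ _, h⟩⟩
  · filter_upwards [hC0, hsum] with j h1 h2
    have h3 := h2 (π i₀)
    rw [h1, zero_mul] at h3
    rw [Finset.sum_filter]
    exact h3.symm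

/-- the canonical form of a sum of moderate units -/
theorem spm_canon (hSLW : ST_SLW) (hS : ∀ p ∈ S, p.Prime)
    (hX : Tendsto X (φ : Filter ℕ) atTop) {z : ℕ → M} (hz : SpM P φ X z) :
    ∃ (J : Type) (_ : Fintype J) (_ : DecidableEq J) (K U : J → ℕ → M),
      (∀ k, Slw P φ X (K k)) ∧ (∀ k, ∀ᶠ j in (φ : Filter ℕ), K k j ≠ 0) ∧
      (∀ k, MU P φ X (U k)) ∧ (∀ k k', k ≠ k' → ¬ Slw P φ X (fun j => U k j / U k' j)) ∧
      ∀ᶠ j in (φ : Filter ℕ), ∑ k, K k j * U k j = z j := by
  classical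
  obtain ⟨t, c, u, hc, hu, hsum⟩ := hz
  obtain ⟨Q, _, _, π, o, C, ho, hπ, hC, hC'⟩ := cluster hSLW hS hX c u hc fun i => (hu i).1
  refine ⟨{q : Q // ¬ ∀ᶠ j in (φ : Filter ℕ), C q j = 0}, inferInstance, inferInstance,
    fun q => C q.1, fun q => u (o q.1), fun q => hC q.1,
    fun q => Ultrafilter.eventually_not.2 q.2, fun q => hu _, fun q q' h h' => ?_, ?_⟩
  · apply h
    apply Subtype.ext
    have h2 := (hπ _ _).2 h'
    rwa [ho, ho] at h2
  · filter_upwards [drop_zero C (fun q => u (o q)), hC', hsum] with j hj2 hj3 hj4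
    rw [hj2, Finset.sum_congr rfl fun q _ => hj3 q, Finset.sum_comm]
    refine Eq.trans (Finset.sum_congr rfl fun i _ => ?_) hj4
    rw [Finset.sum_ite_eq, if_pos (Finset.mem_univ _)]

/-- a sum of S-units with slow coefficients whose height is at most a power of the scale is a sum
of moderate S-units with slow coefficients -/
theorem spa_mod (hSLW : ST_SLW) (hHSL : ST_HSL) (hHBM : ST_HBM) (hSVB : ST_SVB)
    (hINDK : ST_INDK) (hS : ∀ p ∈ S, p.Prime)
    (hX : Tendsto X (φ : Filter ℕ) atTop) {z : ℕ → M} (hz : Spa P φ X z) {A : ℝ}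
    (hzA : ∀ᶠ j in (φ : Filter ℕ), mulHeight₁ (z j) ≤ X j ^ A) : SpM P φ X z := by
  classical
  obtain ⟨-, -, -, -, v5, -⟩ := hSVB M
  have hX1 := hX.eventually_ge_atTop 1
  have hR : ∃ n : ℕ, ∃ (ι : Type) (_ : Fintype ι), Fintype.card ι = n ∧ ∃ c u : ι → ℕ → M,
      (∀ i, Slw P φ X (c i)) ∧ (∀ i, ∀ᶠ j in (φ : Filter ℕ), SV S (u i j)) ∧
      ∀ᶠ j in (φ : Filter ℕ), ∑ i, c i j * u i j = z j := by
    obtain ⟨t, c, u, h1, h2, h3⟩ := hz
    exact ⟨t, Fin t, inferInstance, Fintype.card_fin t, c, u, h1, h2, h3⟩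
  obtain ⟨n, hn⟩ : ∃ n : ℕ, n = Nat.find hR := ⟨_, rfl⟩
  have hmin : ∀ m < n, ¬ ∃ (ι : Type) (_ : Fintype ι), Fintype.card ι = m ∧ ∃ c u : ι → ℕ → M,
      (∀ i, Slw P φ X (c i)) ∧ (∀ i, ∀ᶠ j in (φ : Filter ℕ), SV S (u i j)) ∧
      ∀ᶠ j in (φ : Filter ℕ), ∑ i, c i j * u i j = z j := by
    intro m hm
    rw [hn] at hm
    exact Nat.find_min hR hm
  obtain ⟨ι, _, hcard, c, u, hc, hu, hsum⟩ := Nat.find_spec hR
  rw [← hn] at hcard
  have hmu : ∀ i, MU P φ X (u i) := by
    intro i₁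
    by_contra hcon
    have hbig : ∀ N : ℝ, ∀ᶠ j in (φ : Filter ℕ), X j ^ N < mulHeight₁ (u i₁ j) := by
      intro N
      by_contra h1
      rw [← Ultrafilter.eventually_not] at h1
      refine hcon ⟨hu i₁, max N 1, lt_max_of_lt_right one_pos, ?_⟩
      filter_upwards [h1, hX1] with j h2 h3 v hv σ
      exact (hHBM M S P hS _ v hv σ).trans ((not_lt.1 h2).trans
        (Real.rpow_le_rpow_of_exponent_le h3 (le_max_left _ _)))
    have hmax : ∀ᶠ j in (φ : Filter ℕ), ∃ i₀ : ι, ∀ i, mulHeight₁ (u i j) ≤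
        mulHeight₁ (u i₀ j) := by
      refine Filter.Eventually.of_forall fun j => ?_
      obtain ⟨i₀, -, h⟩ := Finset.exists_max_image (Finset.univ : Finset ι)
        (fun i => mulHeight₁ (u i j)) ⟨i₁, Finset.mem_univ _⟩
      exact ⟨i₀, fun i => h i (Finset.mem_univ i)⟩
    rw [Ultrafilter.eventually_exists_iff] at hmax
    obtain ⟨i₀, hi₀⟩ := hmax
    obtain ⟨X', hX'⟩ : ∃ X' : ℕ → ℝ, X' = fun j => mulHeight₁ (u i₀ j) := ⟨_, rfl⟩
    have hXN : ∀ N : ℝ, ∀ᶠ j in (φ : Filter ℕ), X j ^ N ≤ X' j := by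
      intro N
      filter_upwards [hbig N, hi₀] with j h1 h2
      rw [hX']
      exact h1.le.trans (h2 i₁)
    have hX'inf : Tendsto X' (φ : Filter ℕ) atTop := by
      refine tendsto_atTop_mono' _ (hXN 1) ?_
      simpa only [Real.rpow_one] using hX
    have hXX' : ∀ᶠ j in (φ : Filter ℕ), X j ≤ X' j ^ (1 : ℝ) := by
      filter_upwards [hXN 1] with j h1
      rw [Real.rpow_one] at h1 ⊢
      exact h1
    have s13 := (hSLW M S P φ X hS hX).2.2.2.2.2.2.2.2.2.2.2.2
    have hcX' : ∀ i, Slw P φ X' (c i) := fun i => (s13 X' 1 one_pos hX'inf hXX').1 _ (hc i)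
    obtain ⟨t1, t2, t3, -⟩ := hSLW M S P φ X' hS hX'inf
    have hzX' : Slw P φ X' z := by
      rw [hHSL M S P φ X' hS hX'inf]
      intro ε hε
      filter_upwards [hzA, hXN (|A| / ε), hX1] with j h1 h2 h3
      have h4 : X j ^ A ≤ X j ^ |A| := Real.rpow_le_rpow_of_exponent_le h3 (le_abs_self A)
      have h5 : X j ^ |A| = (X j ^ (|A| / ε)) ^ ε := by
        rw [← Real.rpow_mul (by linarith), div_mul_cancel₀ _ hε.ne']
      rw [h5] at h4
      exact h1.trans (h4.trans (Real.rpow_le_rpow (Real.rpow_nonneg (by linarith) _) h2 hε.le))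
    have hnslow : ¬ Slw P φ X' (u i₀) :=
      not_slw_self hHSL hS hX'inf (Filter.Eventually.of_forall fun j => by rw [hX'])
    have hnone : ¬ Slw P φ X' (fun j => (1 : M) / u i₀ j) := by
      intro h
      apply hnslow
      have h2 := t3 _ h
      simpa only [one_div, inv_inv] using h2
    obtain ⟨T, hT, hT0⟩ := cluster_zero (P := P) (φ := φ) (X := X') hSLW hINDK hS hX'inf
      (ι := Option ι) (fun i => i.elim (fun j => -(z j)) c) (fun i => i.elim (fun _ => (1 : M)) u)
      (by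
        intro i
        cases i with
        | none => exact (slA hSLW hS hX'inf P).neg_mem (x := z) hzX'
        | some i => exact hcX' i)
      (by
        intro i
        cases i with
        | none => exact Filter.Eventually.of_forall fun _ => v5 S
        | some i => exact hu i)
      (by
        filter_upwards [hsum] with j hj
        rw [Fintype.sum_option]
        simp only [Option.elim]
        rw [hj]
        ring)
      (some i₀)
    have hTn : none ∉ T := fun h => hnone ((hT none).1 h)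
    have hTi : some i₀ ∈ T := by
      rw [hT]
      refine (hSLW M S P φ X' hS hX'inf).2.2.2.2.2.2.1 _ _ ?_ (t1 1)
      filter_upwards [hu i₀] with j hj
      exact (div_self hj.1).symm
    have hcz' : ∀ᶠ j in (φ : Filter ℕ), ∑ i, (if some i ∈ T then c i j * u i j else 0) = 0 := by
      filter_upwards [hT0] with j hj
      rw [← Finset.univ_inter T, ← Finset.sum_ite_mem, Fintype.sum_option, if_neg hTn,
        zero_add] at hj
      exact hj
    refine hmin (Fintype.card {i : ι // some i ∉ T}) ?_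
      ⟨{i : ι // some i ∉ T}, inferInstance, rfl,
        fun i => c i.1, fun i => u i.1, fun i => hc i.1, fun i => hu i.1, ?_⟩
    · rw [← hcard]
      exact Fintype.card_subtype_lt (x := i₀) (fun h => h hTi)
    · filter_upwards [hcz', hsum] with j h1 h2
      have h4 : ∑ i ∈ univ.filter (fun i : ι => some i ∉ T),
          c i j * u i j = ∑ i : {i : ι // some i ∉ T}, c i.1 j * u i.1 j :=
        Finset.sum_subtype (p := fun i : ι => some i ∉ T) _ (fun i => by simp) _
      rw [← h4, Finset.sum_filter, ← h2]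
      have h5 : ∑ i, c i j * u i j = ∑ i, (if some i ∈ T then
          c i j * u i j else 0) + ∑ i, (if some i ∉ T then c i j * u i j else 0) := by
        rw [← Finset.sum_add_distrib]
        refine Finset.sum_congr rfl fun i _ => ?_
        by_cases h : some i ∈ T
        · rw [if_pos h, if_neg (not_not.2 h), add_zero]
        · rw [if_neg h, if_pos h, zero_add]
      rw [h5, h1, zero_add]
  obtain ⟨e⟩ : Nonempty (ι ≃ Fin (Fintype.card ι)) := ⟨Fintype.equivFin ι⟩
  refine ⟨Fintype.card ι, fun i => c (e.symm i), fun i => u (e.symm i), fun i => hc _,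
    fun i => hmu _, ?_⟩
  filter_upwards [hsum] with j hj
  rw [← hj]
  exact Equiv.sum_comp e.symm (fun i => c i j * u i j)

end

end Pool.Agent.Helper17.T4
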