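import Pool.Agent.Helper9.MTK.Sheet
import Pool.Agent.Helper8.SUBW.CSTW

/-!
MP_2a8cc2_nt: an element which is close to `T` or `- T` at some places is a sum of S-units with
slow coefficients, if `T` is one.
-/

set_option autoImplicit false

namespace Pool.Agent.Helper17.T4

open Filter Finset Matrix Pool.Agent.Helper70.SUB Pool.Agent.Helper77.SUBK
  Pool.Agent.Helper70.SUBW

section

variable {M : Type} [Field M] [NumberField M] {S : Finset ℕ}

/-- `T` and `- T`: the better one at the place -/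
noncomputable def rowT {J : Type} (P : PF S M) (φ : Ultrafilter ℕ) (Y T : ℕ → M) (v : Option ℕ)
    (σ : M ≃ₐ[ℚ] M) : Option J → M :=
  open Classical in
  fun i => i.elim 1 (fun _ => if (∀ᶠ j in (φ : Filter ℕ),
    P.nv v (σ (Y j - T j)) ≤ P.nv v (σ (Y j + T j))) then -1 else 1)

/-- the forms -/
noncomputable def LT {J : Type} [Fintype J] [DecidableEq J] (P : PF S M) (φ : Ultrafilter ℕ)
    (Y T : ℕ → M) (Lg : Option ℕ → (M ≃ₐ[ℚ] M) → Prop) (v : Option ℕ) (σ : M ≃ₐ[ℚ] M) :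
    Matrix (Option J) (Option J) M :=
  open Classical in
  if Lg v σ then (1 : Matrix (Option J) (Option J) M).updateRow none (rowT P φ Y T v σ) else 1

variable {J : Type} [Fintype J] [DecidableEq J] {P : PF S M} {φ : Ultrafilter ℕ} {Y T : ℕ → M}
  {Lg : Option ℕ → (M ≃ₐ[ℚ] M) → Prop}

theorem LT_det (v : Option ℕ) (σ : M ≃ₐ[ℚ] M) : (LT (J := J) P φ Y T Lg v σ).det ≠ 0 := by
  unfold LT
  split_ifs
  · rw [Pool.Agent.Helper8.SUBW.det_updI]
    exact one_ne_zero
  · rw [Matrix.det_one]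
    exact one_ne_zero

theorem LT_con {v : Option ℕ} {σ σ' : M ≃ₐ[ℚ] M} (hL : Lg v σ ↔ Lg v σ')
    (h : ∀ x, P.nv v (σ x) = P.nv v (σ' x)) :
    LT (J := J) P φ Y T Lg v σ = LT (J := J) P φ Y T Lg v σ' := by
  have h0 : (∀ᶠ j in (φ : Filter ℕ), P.nv v (σ (Y j - T j)) ≤ P.nv v (σ (Y j + T j))) ↔
      (∀ᶠ j in (φ : Filter ℕ), P.nv v (σ' (Y j - T j)) ≤ P.nv v (σ' (Y j + T j))) := by
    constructor
    · intro h1
      filter_upwards [h1] with j hj
      rw [← h, ← h]
      exact hj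
    · intro h1
      filter_upwards [h1] with j hj
      rw [h, h]
      exact hj
  have h1 : rowT (J := J) P φ Y T v σ = rowT (J := J) P φ Y T v σ' := by
    funext i
    cases i with
    | none => rfl
    | some k =>
      unfold rowT
      simp only [Option.elim]
      by_cases hc : ∀ᶠ j in (φ : Filter ℕ), P.nv v (σ' (Y j - T j)) ≤ P.nv v (σ' (Y j + T j))
      · rw [if_pos hc, if_pos (h0.2 hc)]
      · rw [if_neg hc, if_neg (fun h' => hc (h0.1 h'))]
  unfold LT
  rw [h1]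
  by_cases hc : Lg v σ'
  · rw [if_pos hc, if_pos (hL.2 hc)]
  · rw [if_neg hc, if_neg (fun h' => hc (hL.1 h'))]

theorem LT_some (v : Option ℕ) (σ : M ≃ₐ[ℚ] M) (y : Option J → M) (k : J) :
    (LT (J := J) P φ Y T Lg v σ).mulVec y (some k) = y (some k) := by
  unfold LT
  split_ifs
  · exact Pool.Agent.Helper8.SUBW.upd_neI (some k) none _ y (by simp)
  · rw [Matrix.one_mulVec]

/-- the value of the first form -/
theorem LT_none (v : Option ℕ) (σ : M ≃ₐ[ℚ] M) (y : ℕ → Option J → M)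
    (hY : ∀ᶠ j in (φ : Filter ℕ), y j none = Y j)
    (hT : ∀ᶠ j in (φ : Filter ℕ), ∑ k, y j (some k) = T j) :
    ∀ᶠ j in (φ : Filter ℕ), P.nv v (σ ((LT (J := J) P φ Y T Lg v σ).mulVec (y j) none)) ≤
      (open Classical in if Lg v σ then min (P.nv v (σ (Y j - T j))) (P.nv v (σ (Y j + T j)))
        else P.nv v (σ (Y j))) := by
  classical
  unfold LT
  by_cases hc : Lg v σ
  · simp only [if_pos hc]
    by_cases hs : ∀ᶠ j in (φ : Filter ℕ), P.nv v (σ (Y j - T j)) ≤ P.nv v (σ (Y j + T j))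
    · filter_upwards [hY, hT, hs] with j h1 h2 h3
      have h4 : ((1 : Matrix (Option J) (Option J) M).updateRow none
          (rowT P φ Y T v σ)).mulVec (y j) none = Y j - T j := by
        rw [Pool.Agent.Helper8.SUBW.upd_selfI, Fintype.sum_option]
        unfold rowT
        simp only [Option.elim, if_pos hs]
        rw [one_mul, h1, ← h2, sub_eq_add_neg, ← Finset.sum_neg_distrib]
        congr 1
        exact Finset.sum_congr rfl fun k _ => by rw [neg_one_mul]
      rw [h4]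
      exact le_min le_rfl h3
    · have hs' : ∀ᶠ j in (φ : Filter ℕ), ¬ P.nv v (σ (Y j - T j)) ≤ P.nv v (σ (Y j + T j)) :=
        Ultrafilter.eventually_not.2 hs
      filter_upwards [hY, hT, hs'] with j h1 h2 h3
      have h4 : ((1 : Matrix (Option J) (Option J) M).updateRow none
          (rowT P φ Y T v σ)).mulVec (y j) none = Y j + T j := by
        rw [Pool.Agent.Helper8.SUBW.upd_selfI, Fintype.sum_option]
        unfold rowT
        simp only [Option.elim, if_neg hs]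
        rw [one_mul, h1, ← h2]
        congr 1
        exact Finset.sum_congr rfl fun k _ => by rw [one_mul]
      rw [h4]
      exact le_min (not_le.1 h3).le le_rfl
  · simp only [if_neg hc]
    filter_upwards [hY] with j h1
    rw [Matrix.one_mulVec, h1]

end

section

variable {M : Type} [Field M] [NumberField M] [IsGalois ℚ M] {S : Finset ℕ} {P : PF S M}
  {φ : Ultrafilter ℕ} {X : ℕ → ℝ}

/-- the linear relation -/
theorem relT (hSUB : ST_SUBTU) (hSLW : ST_SLW) (hPRK : ST_PRK) (hSVB : ST_SVB)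
    (hS : ∀ p ∈ S, p.Prime) (hX : Tendsto X (φ : Filter ℕ) atTop)
    {J : Type} [Fintype J] [DecidableEq J] (K U : J → ℕ → M) (Y T : ℕ → M)
    (hK : ∀ k, Slw P φ X (K k)) (hU : ∀ k, MU P φ X (U k))
    (hT : ∀ᶠ j in (φ : Filter ℕ), ∑ k, K k j * U k j = T j)
    (hYd : ∀ ε' : ℝ, 0 < ε' → ∀ᶠ j in (φ : Filter ℕ), ∃ D : ℕ, D ≠ 0 ∧ (D : ℝ) ≤ X j ^ ε' ∧
      SI S ((D : M) * Y j)) {A : ℝ} (hYA : ∀ᶠ j in (φ : Filter ℕ), HB P (X j ^ A) (Y j))
    (Lg : Option ℕ → (M ≃ₐ[ℚ] M) → Prop)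
    (hLg : ∀ v ∈ plc S, ∀ σ σ' : M ≃ₐ[ℚ] M, (∀ x, P.nv v (σ x) = P.nv v (σ' x)) →
      (Lg v σ ↔ Lg v σ')) {ε₀ : ℝ} (hε₀ : 0 < ε₀)
    (hprod : ∀ᶠ j in (φ : Filter ℕ), ∏ v ∈ plc S, ∏ σ : M ≃ₐ[ℚ] M,
      (open Classical in if Lg v σ then min (P.nv v (σ (Y j - T j))) (P.nv v (σ (Y j + T j)))
        else P.nv v (σ (Y j))) ≤ X j ^ (-ε₀)) :
    ∃ (a : M) (b : J → M), (a ≠ 0 ∨ b ≠ 0) ∧
      ∀ᶠ j in (φ : Filter ℕ), a * Y j + ∑ k, b k * (K k j * U k j) = 0 := by
  classical
  obtain ⟨-, -, -, -, s5, -, -, -, -, -, -, s12, -⟩ := hSLW M S P φ X hS hX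
  obtain ⟨-, hpfS, -⟩ := hPRK M S P hS
  obtain ⟨si1, si2, -⟩ := hSVB M
  have hB : ∀ k, ∃ B : ℝ, 0 < B ∧ ∀ᶠ j in (φ : Filter ℕ), HB P (X j ^ B) (U k j) :=
    fun k => (hU k).2
  choose B hB0 hBu using hB
  obtain ⟨N, hN⟩ : ∃ N : ℕ, N = (plc S).card * (Fintype.card (M ≃ₐ[ℚ] M) * Fintype.card J) :=
    ⟨_, rfl⟩
  obtain ⟨δ, hδ⟩ : ∃ δ : ℝ, δ = ε₀ / (2 * ((N : ℝ) + 1)) := ⟨_, rfl⟩
  have hN0 : (0 : ℝ) ≤ N := Nat.cast_nonneg N
  have hδ0 : 0 < δ := by
    rw [hδ]
    positivity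
  have hδN : δ * ((N : ℝ) + 1) = ε₀ / 2 := by
    rw [hδ]
    field_simp
  have hX1 : ∀ᶠ j in (φ : Filter ℕ), (1 : ℝ) ≤ X j := hX.eventually_ge_atTop 1
  have hSV : ∀ᶠ j in (φ : Filter ℕ), ∀ k, SV S (U k j) :=
    Filter.eventually_all.mpr fun k => (hU k).1
  have hcs : ∀ (ε : ℝ), 0 < ε → ∀ᶠ j in (φ : Filter ℕ), ∀ v' ∈ plc S, ∀ (σ' : M ≃ₐ[ℚ] M) (k : J),
      P.nv v' (σ' (K k j)) ≤ X j ^ ε := by
    intro ε hε
    rw [Filter.eventually_all_finset]
    intro v' hv'
    rw [Filter.eventually_all]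
    intro σ'
    rw [Filter.eventually_all]
    intro k
    exact s5 (K k) (hK k) v' hv' σ' ε hε
  have hBall : ∀ᶠ j in (φ : Filter ℕ), ∀ k, HB P (X j ^ B k) (U k j) :=
    Filter.eventually_all.mpr hBu
  obtain ⟨y, hy⟩ : ∃ y : ℕ → Option J → M, y = fun j i =>
    i.elim (Y j) (fun k => K k j * U k j) := ⟨_, rfl⟩
  have hy1 : ∀ j, y j none = Y j := fun j => by rw [hy]; rfl
  have hy2 : ∀ j k, y j (some k) = K k j * U k j := fun j k => by rw [hy]; rfl
  have hforms : ∀ᶠ j in (φ : Filter ℕ), ∀ v ∈ plc S, ∀ σ : M ≃ₐ[ℚ] M,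
      P.nv v (σ ((LT (J := J) P φ Y T Lg v σ).mulVec (y j) none)) ≤
      (if Lg v σ then min (P.nv v (σ (Y j - T j))) (P.nv v (σ (Y j + T j)))
        else P.nv v (σ (Y j))) := by
    rw [Filter.eventually_all_finset]
    intro v _
    rw [Filter.eventually_all]
    intro σ
    refine LT_none v σ y (Filter.Eventually.of_forall hy1) ?_
    filter_upwards [hT] with j hj
    rw [← hj]
    exact Finset.sum_congr rfl fun k _ => hy2 j k
  obtain ⟨a, ha, hrel⟩ := hSUB M S P (Option J) (LT (J := J) P φ Y T Lg) (ε₀ / 2)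
    (|A| + 1 + ∑ k, B k) φ X y ⟨none⟩ hS (fun v _ σ => LT_det v σ)
    (fun v hv σ σ' h => LT_con (hLg v hv σ σ' h) h) (by positivity) hX
    (by
      intro ε' hε'
      filter_upwards [s12 J Finset.univ K (fun k _ => hK k) (ε' / 2) (by positivity), hSV,
        hYd (ε' / 2) (by positivity), hX1] with j hD hj hD' h1
      obtain ⟨D, hD0, hDle, hDi⟩ := hD
      obtain ⟨D', hD'0, hD'le, hD'i⟩ := hD'
      refine ⟨D * D', mul_ne_zero hD0 hD'0, ?_, fun i => ?_⟩
      · have e1 : X j ^ ε' = X j ^ (ε' / 2) * X j ^ (ε' / 2) := by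
          rw [← Real.rpow_add (by linarith)]
          congr 1
          ring
        rw [e1]
        push_cast
        exact mul_le_mul hDle hD'le (by positivity) (Real.rpow_nonneg (by linarith) _)
      · cases i with
        | none =>
          rw [hy1]
          have e2 : ((D * D' : ℕ) : M) * Y j = (D : M) * ((D' : M) * Y j) := by
            push_cast
            ring
          rw [e2]
          exact (si2 S _ _ (si1 S _ (isIntegral_natCast D)) hD'i).2
        | some k =>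
          rw [hy2]
          have e2 : ((D * D' : ℕ) : M) * (K k j * U k j) =
              (D' : M) * (((D : M) * K k j) * U k j) := by
            push_cast
            ring
          rw [e2]
          exact (si2 S _ _ (si1 S _ (isIntegral_natCast D'))
            (si2 S _ _ (si1 S _ (hDi k (Finset.mem_univ k))) (hj k).2.1).2).2)
    (by
      filter_upwards [hcs 1 one_pos, hBall, hX1, hYA] with j h1 h2 h3 h4
      intro v hv σ i
      have hB1 : 0 ≤ ∑ k, B k := Finset.sum_nonneg fun k _ => (hB0 k).le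
      cases i with
      | none =>
        rw [hy1]
        refine (h4 v hv σ).trans (Real.rpow_le_rpow_of_exponent_le h3 ?_)
        have := le_abs_self A
        linarith
      | some k =>
        rw [hy2, map_mul, P.mul v hv]
        have hBk : B k ≤ ∑ k, B k :=
          Finset.single_le_sum (f := B) (fun k _ => (hB0 k).le) (Finset.mem_univ k)
        calc P.nv v (σ (K k j)) * P.nv v (σ (U k j)) ≤ X j ^ (1 : ℝ) * X j ^ (B k) :=
              mul_le_mul (h1 v hv σ k) (h2 k v hv σ) (P.nn _ _)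
                (Real.rpow_nonneg (by linarith) _)
          _ = X j ^ (1 + B k) := (Real.rpow_add (by linarith) _ _).symm
          _ ≤ _ := by
            refine Real.rpow_le_rpow_of_exponent_le h3 ?_
            have := abs_nonneg A
            linarith)
    (by
      filter_upwards [hcs δ hδ0, hX1, hSV, hforms, hprod] with j h1 h3 h4 h5 h6
      have hXp : 0 < X j := by linarith
      have e1 : ∏ v ∈ plc S, ∏ σ : M ≃ₐ[ℚ] M, ∏ i,
          P.nv v (σ ((LT (J := J) P φ Y T Lg v σ).mulVec (y j) i)) =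
          (∏ v ∈ plc S, ∏ σ : M ≃ₐ[ℚ] M,
            P.nv v (σ ((LT (J := J) P φ Y T Lg v σ).mulVec (y j) none))) *
          ∏ v ∈ plc S, ∏ σ : M ≃ₐ[ℚ] M, ∏ k, P.nv v (σ (K k j * U k j)) := by
        rw [← Finset.prod_mul_distrib]
        refine Finset.prod_congr rfl fun v _ => ?_
        rw [← Finset.prod_mul_distrib]
        refine Finset.prod_congr rfl fun σ _ => ?_
        rw [Fintype.prod_option]
        congr 1
        exact Finset.prod_congr rfl fun k _ => by rw [LT_some, hy2]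
      rw [e1]
      have hu1 : ∏ v ∈ plc S, ∏ σ : M ≃ₐ[ℚ] M, ∏ k, P.nv v (σ (U k j)) = 1 := by
        have e1 : ∏ k, ∏ v ∈ plc S, ∏ σ : M ≃ₐ[ℚ] M, P.nv v (σ (U k j)) =
            ∏ v ∈ plc S, ∏ σ : M ≃ₐ[ℚ] M, ∏ k, P.nv v (σ (U k j)) :=
          Finset.prod_comm.trans (Finset.prod_congr rfl fun v' _ => Finset.prod_comm)
        rw [← e1]
        exact Finset.prod_eq_one fun k _ => hpfS (U k j) (h4 k)
      have hsplit : ∏ v ∈ plc S, ∏ σ : M ≃ₐ[ℚ] M, ∏ k, P.nv v (σ (K k j * U k j)) =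
          ∏ v ∈ plc S, ∏ σ : M ≃ₐ[ℚ] M, ∏ k, P.nv v (σ (K k j)) := by
        have e1 : ∏ v ∈ plc S, ∏ σ : M ≃ₐ[ℚ] M, ∏ k, P.nv v (σ (K k j * U k j)) =
            (∏ v ∈ plc S, ∏ σ : M ≃ₐ[ℚ] M, ∏ k, P.nv v (σ (K k j))) *
            ∏ v ∈ plc S, ∏ σ : M ≃ₐ[ℚ] M, ∏ k, P.nv v (σ (U k j)) := by
          rw [← Finset.prod_mul_distrib]
          refine Finset.prod_congr rfl fun v hv => ?_
          rw [← Finset.prod_mul_distrib]
          refine Finset.prod_congr rfl fun σ _ => ?_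
          rw [← Finset.prod_mul_distrib]
          refine Finset.prod_congr rfl fun k _ => ?_
          rw [map_mul, P.mul v hv]
        rw [e1, hu1, mul_one]
      have hcb : ∏ v ∈ plc S, ∏ σ : M ≃ₐ[ℚ] M, ∏ k, P.nv v (σ (K k j)) ≤ (X j ^ δ) ^ N := by
        calc ∏ v ∈ plc S, ∏ σ : M ≃ₐ[ℚ] M, ∏ k, P.nv v (σ (K k j))
            ≤ ∏ v ∈ plc S, ∏ σ : M ≃ₐ[ℚ] M, ∏ k : J, X j ^ δ := by
              refine Finset.prod_le_prod (fun v _ => Finset.prod_nonneg fun σ _ =>
                Finset.prod_nonneg fun i _ => P.nn _ _) fun v hv => ?_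
              refine Finset.prod_le_prod (fun σ _ => Finset.prod_nonneg fun i _ => P.nn _ _)
                fun σ _ => ?_
              exact Finset.prod_le_prod (fun i _ => P.nn _ _) fun i _ => h1 v hv σ i
          _ = (X j ^ δ) ^ N := by
              rw [Finset.prod_const, Finset.prod_const, Finset.prod_const, Finset.card_univ,
                Finset.card_univ, ← pow_mul, ← pow_mul, hN]
              congr 1
              ring
      have hpow : (X j ^ δ) ^ N = X j ^ (δ * N) := by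
        rw [← Real.rpow_natCast, ← Real.rpow_mul hXp.le]
      have hfirst : ∏ v ∈ plc S, ∏ σ : M ≃ₐ[ℚ] M,
          P.nv v (σ ((LT (J := J) P φ Y T Lg v σ).mulVec (y j) none)) ≤ X j ^ (-ε₀) := by
        refine le_trans ?_ h6
        refine Finset.prod_le_prod (fun v _ => Finset.prod_nonneg fun σ _ => P.nn _ _)
          fun v hv => ?_
        exact Finset.prod_le_prod (fun σ _ => P.nn _ _) fun σ _ => h5 v hv σ
      rw [hsplit]
      refine (mul_le_mul hfirst hcb (Finset.prod_nonneg fun v _ => Finset.prod_nonneg fun σ _ =>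
        Finset.prod_nonneg fun k _ => P.nn _ _) (Real.rpow_nonneg hXp.le _)).trans ?_
      rw [hpow, ← Real.rpow_add hXp]
      apply Real.rpow_le_rpow_of_exponent_le h3
      nlinarith [hδN])
  refine ⟨a none, fun k => a (some k), ?_, ?_⟩
  · by_contra hcon
    push Not at hcon
    apply ha
    funext i
    cases i with
    | none => exact hcon.1
    | some k => exact congrFun hcon.2 k
  · filter_upwards [hrel] with j hj
    rw [Fintype.sum_option, hy1] at hj
    rw [← hj]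
    congr 1
    exact Finset.sum_congr rfl fun k _ => by rw [hy2]

end

end Pool.Agent.Helper17.T4
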