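import Pool.Agent.Helper17.T4.Est
import Pool.Agent.Helper17.T4.Sub
import Pool.Agent.Helper17.T4.Clu

/-!
MP_2a8cc2_nt: if `Y ^ 2 = G z` and `Y` is close to `T` or `- T` at all the places where `z` is
large, `z` and `T` sums of moderate S-units with slow coefficients, then `Y` is such a sum.
-/

set_option autoImplicit false

namespace Pool.Agent.Helper17.T4

open Filter Finset Pool.Agent.Helper70.SUB Pool.Agent.Helper77.SUBK
  Pool.Agent.Helper70.SUBW Pool.Agent.Helper9.MTK Height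

section

variable {M : Type} [Field M] [NumberField M] {S : Finset ℕ}

theorem si_sum (hSVB : ST_SVB) {ι : Type} (s : Finset ι) (f : ι → M) (h : ∀ i ∈ s, SI S (f i)) :
    SI S (∑ i ∈ s, f i) := by
  classical
  obtain ⟨si1, si2, -⟩ := hSVB M
  induction s using Finset.induction_on with
  | empty =>
    rw [Finset.sum_empty]
    exact si1 S _ isIntegral_zero
  | insert a s ha ih =>
    rw [Finset.sum_insert ha]
    exact (si2 S _ _ (h a (Finset.mem_insert_self a s))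
      (ih fun i hi => h i (Finset.mem_insert_of_mem hi))).1

theorem si_pow (hSVB : ST_SVB) {z : M} (h : SI S z) (n : ℕ) : SI S (z ^ n) := by
  obtain ⟨si1, si2, -⟩ := hSVB M
  induction n with
  | zero =>
    rw [pow_zero]
    exact si1 S _ isIntegral_one
  | succ n ih =>
    rw [pow_succ]
    exact (si2 S _ _ ih h).2

omit [NumberField M] in
theorem si_of_sq {z : M} (h : SI S (z ^ 2)) : SI S z := by
  obtain ⟨n, hn, hi⟩ := h
  refine ⟨n, hn, ?_⟩
  have h1 : IsIntegral ℤ (((n : M) * z) ^ 2) := by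
    have h2 : ((n : M) * z) ^ 2 = (n : M) * ((n : M) * z ^ 2) := by ring
    rw [h2]
    exact (isIntegral_natCast n).mul hi
  exact IsIntegral.of_pow (by norm_num) h1

omit [NumberField M] in
theorem sv_of_sq {z : M} (h : SV S (z ^ 2)) : SV S z := by
  refine ⟨?_, si_of_sq h.2.1, si_of_sq ?_⟩
  · rintro rfl
    exact h.1 (by norm_num)
  · rw [inv_pow]
    exact h.2.2

end

section

variable {M : Type} [Field M] [NumberField M] [IsGalois ℚ M] {S : Finset ℕ} {P : PF S M}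
  {φ : Ultrafilter ℕ} {X : ℕ → ℝ}

/-- denominators of sums of S-units with slow coefficients -/
theorem spa_den (hSLW : ST_SLW) (hSVB : ST_SVB) (hS : ∀ p ∈ S, p.Prime)
    (hX : Tendsto X (φ : Filter ℕ) atTop) {z : ℕ → M} (hz : Spa P φ X z) :
    ∀ ε' : ℝ, 0 < ε' → ∀ᶠ j in (φ : Filter ℕ), ∃ D : ℕ, D ≠ 0 ∧ (D : ℝ) ≤ X j ^ ε' ∧
      SI S ((D : M) * z j) := by
  intro ε' hε'
  obtain ⟨-, -, -, -, -, -, -, -, -, -, -, s12, -⟩ := hSLW M S P φ X hS hX
  obtain ⟨si1, si2, -⟩ := hSVB M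
  obtain ⟨t, c, u, hc, hu, hsum⟩ := hz
  filter_upwards [s12 (Fin t) univ c (fun i _ => hc i) ε' hε',
    Filter.eventually_all.2 hu, hsum] with j h1 h2 h3
  obtain ⟨E, hE0, hE, hEi⟩ := h1
  refine ⟨E, hE0, hE, ?_⟩
  rw [← h3, Finset.mul_sum]
  refine si_sum hSVB _ _ fun i hi => ?_
  rw [← mul_assoc]
  exact (si2 S _ _ (si1 S _ (hEi i hi)) (h2 i).2.1).2

/-- denominators of `Y` -/
theorem den_est (hSLW : ST_SLW) (hSVB : ST_SVB) (hS : ∀ p ∈ S, p.Prime)
    (hX : Tendsto X (φ : Filter ℕ) atTop) {z Y : ℕ → M} {b : ℕ → ℕ → M} {D : ℕ}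
    (hb : ∀ i, Slw P φ X (b i))
    (hz : ∀ ε' : ℝ, 0 < ε' → ∀ᶠ j in (φ : Filter ℕ), ∃ D : ℕ, D ≠ 0 ∧ (D : ℝ) ≤ X j ^ ε' ∧
      SI S ((D : M) * z j))
    (hY : ∀ᶠ j in (φ : Filter ℕ), Y j ^ 2 = ∑ i ∈ range (D + 1), b i j * z j ^ i) :
    ∀ ε' : ℝ, 0 < ε' → ∀ᶠ j in (φ : Filter ℕ), ∃ D : ℕ, D ≠ 0 ∧ (D : ℝ) ≤ X j ^ ε' ∧
      SI S ((D : M) * Y j) := by
  intro ε' hε'
  obtain ⟨-, -, -, -, -, -, -, -, -, -, -, s12, -⟩ := hSLW M S P φ X hS hX
  obtain ⟨si1, si2, -⟩ := hSVB M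
  obtain ⟨η, hη⟩ : ∃ η : ℝ, η = ε' / ((D : ℝ) + 1) := ⟨_, rfl⟩
  have hη0 : 0 < η := by
    rw [hη]
    positivity
  have hηε : η * ((D : ℝ) + 1) = ε' := by
    rw [hη]
    field_simp
  filter_upwards [s12 ℕ (range (D + 1)) b (fun i _ => hb i) η hη0, hz η hη0, hY,
    hX.eventually_ge_atTop 1] with j h1 h2 h3 h4
  obtain ⟨E, hE0, hE, hEi⟩ := h1
  obtain ⟨E', hE'0, hE', hEz⟩ := h2
  refine ⟨E * E' ^ D, mul_ne_zero hE0 (pow_ne_zero _ hE'0), ?_, si_of_sq ?_⟩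
  · have e1 : X j ^ ε' = X j ^ η * (X j ^ η) ^ D := by
      rw [← hηε, ← Real.rpow_natCast, ← Real.rpow_mul (by linarith), ← Real.rpow_add (by linarith)]
      congr 1
      ring
    rw [e1]
    push_cast
    exact mul_le_mul hE (pow_le_pow_left₀ (by positivity) hE' D) (by positivity)
      (Real.rpow_nonneg (by linarith) _)
  · have h5 : (((E * E' ^ D : ℕ) : M) * Y j) ^ 2 = ((E * E' ^ D : ℕ) : M) *
        ∑ i ∈ range (D + 1), ((E : M) * b i j) * ((E' : M) ^ (D - i) * ((E' : M) * z j) ^ i) := by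
      rw [mul_pow, h3, sq, mul_assoc, Finset.mul_sum]
      congr 1
      refine Finset.sum_congr rfl fun i hi => ?_
      have hi' : i ≤ D := by
        have := Finset.mem_range.1 hi
        omega
      have h6 : (E' : M) ^ D = (E' : M) ^ (D - i) * (E' : M) ^ i := by
        rw [← pow_add]
        congr 1
        omega
      push_cast
      rw [h6]
      ring
    rw [h5]
    refine (si2 S _ _ (si1 S _ (isIntegral_natCast _)) (si_sum hSVB _ _ fun i hi => ?_)).2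
    refine (si2 S _ _ (si1 S _ (hEi i hi)) (si2 S _ _ (si_pow hSVB (si1 S _
      (isIntegral_natCast E')) _) (si_pow hSVB hEz i)).2).2

/-- size of `Y` -/
theorem size_est (hSLW : ST_SLW) (hS : ∀ p ∈ S, p.Prime)
    (hX : Tendsto X (φ : Filter ℕ) atTop) {z Y : ℕ → M} {b : ℕ → ℕ → M} {D : ℕ}
    (hb : ∀ i, Slw P φ X (b i)) {A : ℝ} (hA : 0 < A)
    (hzX : ∀ᶠ j in (φ : Filter ℕ), HB P (X j ^ A) (z j))
    (hY : ∀ᶠ j in (φ : Filter ℕ), Y j ^ 2 = ∑ i ∈ range (D + 1), b i j * z j ^ i) :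
    ∀ᶠ j in (φ : Filter ℕ), HB P (X j ^ (A * ((D + 2 : ℕ) : ℝ))) (Y j) := by
  have h1 : ∀ᶠ j in (φ : Filter ℕ), ∀ v ∈ plc S, ∀ σ : M ≃ₐ[ℚ] M,
      P.nv v (σ (Y j)) ≤ (X j ^ A) ^ (D + 2) := by
    rw [Filter.eventually_all_finset]
    intro v hv
    rw [Filter.eventually_all]
    intro σ
    refine small_est hSLW hS hX hA hb hY hv σ ?_
    filter_upwards [hzX] with j hj
    exact hj v hv σ
  filter_upwards [h1, hX.eventually_ge_atTop 1] with j hj hj1 v hv σ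
  rw [Real.rpow_mul (by linarith), Real.rpow_natCast]
  exact hj v hv σ

theorem close (hSLW : ST_SLW) (hSPW : ST_SPW) (hSVB : ST_SVB) (hPRK : ST_PRK) (hDEN : ST_DEN)
    (hAV : ST_AV) (hSUB : ST_SUBTU) (hINDK : ST_INDK) (hS : ∀ p ∈ S, p.Prime)
    (hX : Tendsto X (φ : Filter ℕ) atTop) (D : ℕ) (b : ℕ → ℕ → M) (z Y T : ℕ → M)
    (hb : ∀ i, Slw P φ X (b i)) (hz : Spa P φ X z) (hT : SpM P φ X T)
    (hY : ∀ᶠ j in (φ : Filter ℕ), Y j ^ 2 = ∑ i ∈ range (D + 1), b i j * z j ^ i)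
    {A : ℝ} (hA : 0 < A) (hzX : ∀ᶠ j in (φ : Filter ℕ), HB P (X j ^ A) (z j))
    (hest : ∀ δ : ℝ, 0 < δ → ∀ v ∈ plc S, ∀ σ : M ≃ₐ[ℚ] M,
      (∀ᶠ j in (φ : Filter ℕ), X j ^ δ < P.nv v (σ (z j))) →
      ∀ᶠ j in (φ : Filter ℕ), min (P.nv v (σ (Y j - T j))) (P.nv v (σ (Y j + T j))) ≤
        (X j ^ δ) ^ 6 * P.nv v (σ ((z j)⁻¹)))
    (hns : ¬ Slw P φ X z) : Spa P φ X Y := by
  classical
  obtain ⟨s1, s2, -⟩ := hSLW M S P φ X hS hX
  obtain ⟨-, -, -, -, -, -, -, -, -, -, -, m12, m13⟩ := hSPW M S P φ X hS hX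
  have hzd := spa_den hSLW hSVB hS hX hz
  obtain ⟨v₀, hv₀, σ₀, ε, hε, hL₀⟩ := big_place hDEN hAV hS hX hzd hns
  obtain ⟨δ, hδ⟩ := prod_est hSLW hS hX hb hY hest hv₀ σ₀ hε hL₀
  obtain ⟨J, _, _, K, U, hKs, hK0, hUm, hrat, hT'⟩ := spm_canon hSLW hS hX hT
  have hUsv : ∀ k, ∀ᶠ j in (φ : Filter ℕ), SV S (U k j) := fun k => (hUm k).1
  obtain ⟨a, β, hab, hrel⟩ := relT hSUB hSLW hPRK hSVB hS hX K U Y T
    hKs hUm hT' (den_est hSLW hSVB hS hX hb hzd hY) (size_est hSLW hS hX hb hA hzX hY)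
    (fun v σ => ∀ᶠ j in (φ : Filter ℕ), X j ^ δ < P.nv v (σ (z j)))
    (fun v _ σ σ' h => by simp only [h]) (half_pos hε) hδ
  by_cases ha : a = 0
  · exfalso
    have hβ : β ≠ 0 := by
      rcases hab with h | h
      · exact absurd ha h
      · exact h
    obtain ⟨k₀, hk₀⟩ : ∃ k, β k ≠ 0 := by
      by_contra hcon
      push Not at hcon
      exact hβ (funext hcon)
    have h1 := hINDK M S P φ X {k : J // β k ≠ 0} (fun k j => β k.1 * K k.1 j) (fun k => U k.1)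
      hS hX ⟨⟨k₀, hk₀⟩⟩ (fun k => (s2 _ _ (s1 (β k.1)) (hKs k.1)).2)
      (fun k => (hK0 k.1).mono fun j hj => mul_ne_zero k.2 hj) (fun k => hUsv k.1)
      (fun k k' h => hrat k.1 k'.1 (fun h' => h (Subtype.ext h')))
    obtain ⟨j, hj1, hj2⟩ := (h1.and hrel).exists
    apply hj1
    rw [ha, zero_mul, zero_add] at hj2
    have h3 : ∑ k ∈ univ.filter (fun k : J => β k ≠ 0), β k * (K k j * U k j) =
        ∑ k, β k * (K k j * U k j) := by
      refine Finset.sum_filter_of_ne fun k _ hk hk' => ?_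
      exact hk (by rw [hk', zero_mul])
    have h4 : ∑ k ∈ univ.filter (fun k : J => β k ≠ 0), β k * (K k j * U k j) =
        ∑ k : {k : J // β k ≠ 0}, β k.1 * (K k.1 j * U k.1 j) :=
      Finset.sum_subtype (p := fun k : J => β k ≠ 0) _ (fun k => by simp) _
    refine Eq.trans ?_ (h4.symm.trans (h3.trans hj2))
    exact Finset.sum_congr rfl fun k _ => mul_assoc _ _ _
  · have h1 : Spa P φ X (fun j => ∑ k, (-(β k) / a * K k j) * U k j) :=
      m13 J (fun k j => -(β k) / a * K k j) U (fun k => (s2 _ _ (s1 _) (hKs k)).2) hUsv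
    refine (m12 _ _ ?_).2 h1
    filter_upwards [hrel] with j hj
    have h2 : Y j = -(∑ k, β k * (K k j * U k j)) / a := by
      rw [eq_div_iff ha]
      linear_combination hj
    rw [h2, neg_div, Finset.sum_div, ← Finset.sum_neg_distrib]
    refine Finset.sum_congr rfl fun k _ => ?_
    ring

/-- polynomials with slow coefficients in a sum of moderate S-units -/
theorem spm_poly (hSPW : ST_SPW) (hS : ∀ p ∈ S, p.Prime)
    (hX : Tendsto X (φ : Filter ℕ) atTop) {z : ℕ → M} (hz : SpM P φ X z) (e : ℕ → ℕ → M)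
    (he : ∀ i, Slw P φ X (e i)) (N : ℕ) :
    SpM P φ X (fun j => ∑ i ∈ range N, e i j * z j ^ i) := by
  obtain ⟨-, -, -, -, -, m6, -, m8, m9, -, -, m12, -⟩ := hSPW M S P φ X hS hX
  induction N with
  | zero =>
    refine (m12 (fun _ => e 0 0 - e 0 0) _ ?_).1 ?_
    · refine Filter.Eventually.of_forall fun j => ?_
      rw [Finset.sum_range_zero, sub_self]
    · have h1 := (m8 _ _ (m6 _ (he 0)) (m6 _ (he 0))).1
      exact ⟨0, fun i => i.elim0, fun i => i.elim0, fun i => i.elim0, fun i => i.elim0,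
        Filter.Eventually.of_forall fun j => by rw [Finset.univ_eq_empty, Finset.sum_empty,
          sub_self]⟩
  | succ N ih =>
    have h1 : (fun j => ∑ i ∈ range (N + 1), e i j * z j ^ i) =
        fun j => (∑ i ∈ range N, e i j * z j ^ i) + e N j * z j ^ N := by
      funext j
      rw [Finset.sum_range_succ]
    rw [h1]
    exact (m8 _ _ ih (m8 _ _ (m6 _ (he N)) (m9 _ N hz)).2).1

end

end Pool.Agent.Helper17.T4
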