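import Pool.Agent.Helper17.T4.Slow

/-!
MP_2a8cc2_nt: estimates along the ultrafilter.
-/

set_option autoImplicit false

namespace Pool.Agent.Helper17.T4

open Filter Finset Pool.Agent.Helper70.SUB Pool.Agent.Helper77.SUBK
  Pool.Agent.Helper70.SUBW

section

variable {M : Type} [Field M] [NumberField M] [IsGalois ℚ M] {S : Finset ℕ} {P : PF S M}
  {φ : Ultrafilter ℕ} {X : ℕ → ℝ}

/-- a sequence with small denominators which is small at all the places above `S` is slow -/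
theorem slow_of_places (hDEN : ST_DEN) (hAV : ST_AV) (hS : ∀ p ∈ S, p.Prime)
    (hX : Tendsto X (φ : Filter ℕ) atTop) {z : ℕ → M}
    (hd : ∀ ε' : ℝ, 0 < ε' → ∀ᶠ j in (φ : Filter ℕ), ∃ D : ℕ, D ≠ 0 ∧ (D : ℝ) ≤ X j ^ ε' ∧
      SI S ((D : M) * z j))
    (hz : ∀ v ∈ plc S, ∀ (σ : M ≃ₐ[ℚ] M) (ε : ℝ), 0 < ε →
      ∀ᶠ j in (φ : Filter ℕ), P.nv v (σ (z j)) ≤ X j ^ ε) : Slw P φ X z := by
  intro ε hε
  obtain ⟨η, hη⟩ : ∃ η : ℝ, η = ε / ((S.card : ℝ) + 2) := ⟨_, rfl⟩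
  have hη0 : 0 < η := by
    rw [hη]
    positivity
  have hηε : η * ((S.card : ℝ) + 2) = ε := by
    rw [hη]
    field_simp
  obtain ⟨C, hC⟩ : ∃ C : ℝ, C = ∏ p ∈ S, (p : ℝ) := ⟨_, rfl⟩
  have hall : ∀ᶠ j in (φ : Filter ℕ), ∀ v ∈ plc S, ∀ σ : M ≃ₐ[ℚ] M,
      P.nv v (σ (z j)) ≤ X j ^ η := by
    rw [Filter.eventually_all_finset]
    intro v hv
    rw [Filter.eventually_all]
    intro σ
    exact hz v hv σ η hη0
  have hXC : ∀ᶠ j in (φ : Filter ℕ), C ≤ X j ^ η :=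
    ((tendsto_rpow_atTop hη0).comp hX).eventually_ge_atTop _
  filter_upwards [hd η hη0, hall, hXC, hX.eventually_ge_atTop 1] with j h1 h2 h3 h4
  obtain ⟨D, hD0, hD, hDi⟩ := h1
  have hXη : 1 ≤ X j ^ η := Real.one_le_rpow h4 hη0.le
  obtain ⟨n, hn, hnle, hnI⟩ := (hDEN M S P hS).1 (X j ^ η) hXη
  rw [← hC] at hnle
  have e1 : X j ^ ε = X j ^ η * (X j ^ η) ^ S.card * X j ^ η := by
    rw [← hηε, ← Real.rpow_natCast, ← Real.rpow_mul (by linarith), ← Real.rpow_add (by linarith),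
      ← Real.rpow_add (by linarith)]
    congr 1
    ring
  refine ⟨n * D, mul_ne_zero hn.1 hD0, ?_, ?_, fun σ => ?_⟩
  · rw [e1]
    push_cast
    refine mul_le_mul (hnle.trans (mul_le_mul_of_nonneg_right h3 (by positivity))) hD
      (by positivity) (by positivity)
  · have e2 : ((n * D : ℕ) : M) * z j = (n : M) * ((D : M) * z j) := by
      push_cast
      ring
    rw [e2]
    refine hnI _ hDi fun p hp σ => ?_
    rw [map_mul, P.mul _ (mem_some hp), map_natCast]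
    have h5 := P.integral_le hAV hS hp (isIntegral_natCast (R := ℤ) (B := M) D)
    calc P.nv (some p) (D : M) * P.nv (some p) (σ (z j)) ≤ 1 * X j ^ η :=
          mul_le_mul h5 (h2 _ (mem_some hp) σ) (P.nn _ _) zero_le_one
      _ = X j ^ η := one_mul _
  · refine (h2 none mem_none σ).trans (Real.rpow_le_rpow_of_exponent_le h4 ?_)
    rw [← hηε]
    nlinarith [Nat.cast_nonneg (α := ℝ) S.card]

/-- a place at which `z` is large -/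
theorem big_place (hDEN : ST_DEN) (hAV : ST_AV) (hS : ∀ p ∈ S, p.Prime)
    (hX : Tendsto X (φ : Filter ℕ) atTop) {z : ℕ → M}
    (hd : ∀ ε' : ℝ, 0 < ε' → ∀ᶠ j in (φ : Filter ℕ), ∃ D : ℕ, D ≠ 0 ∧ (D : ℝ) ≤ X j ^ ε' ∧
      SI S ((D : M) * z j)) (hns : ¬ Slw P φ X z) :
    ∃ v ∈ plc S, ∃ (σ : M ≃ₐ[ℚ] M) (ε : ℝ), 0 < ε ∧
      ∀ᶠ j in (φ : Filter ℕ), X j ^ ε < P.nv v (σ (z j)) := by
  by_contra hcon
  refine hns (slow_of_places hDEN hAV hS hX hd fun v hv σ ε hε => ?_)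
  by_contra h2
  rw [← Ultrafilter.eventually_not] at h2
  exact hcon ⟨v, hv, σ, ε, hε, h2.mono fun j hj => not_le.1 hj⟩

/-- large places -/
theorem big_est {hSLW : ST_SLW} {hS : ∀ p ∈ S, p.Prime}
    {hX : Tendsto X (φ : Filter ℕ) atTop} {x q s p p' R bD G Y : ℕ → M} {D : ℕ} {δ : ℝ}
    (hδ : 0 < δ) (hx0 : ∀ᶠ j in (φ : Filter ℕ), x j ≠ 0) (hq : ∀ j, q j = (x j)⁻¹)
    (hs : ∀ᶠ j in (φ : Filter ℕ), s j ^ 2 = bD j * x j ^ D)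
    (hp : ∀ j, p j = 1 + q j * p' j) (hpp : ∀ j, p j ^ 2 = G j + q j ^ (D + 1) * R j)
    (hY : ∀ᶠ j in (φ : Filter ℕ), Y j ^ 2 = s j ^ 2 * G j)
    (hp' : Pol (slA hSLW hS hX P) q p') (hR : Pol (slA hSLW hS hX P) q R)
    (hbD : Slw P φ X bD) (hbD0 : ∀ᶠ j in (φ : Filter ℕ), bD j ≠ 0)
    {v : Option ℕ} (hv : v ∈ plc S) (σ : M ≃ₐ[ℚ] M)
    (hL : ∀ᶠ j in (φ : Filter ℕ), X j ^ δ < P.nv v (σ (x j))) :
    ∀ᶠ j in (φ : Filter ℕ), min (P.nv v (σ (Y j - s j * p j))) (P.nv v (σ (Y j + s j * p j))) ≤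
      (X j ^ δ) ^ 6 * P.nv v (σ (q j)) := by
  obtain ⟨s1, -, -, -, s5, s6, -⟩ := hSLW M S P φ X hS hX
  have hX0 := hX.eventually_gt_atTop 0
  have hX2 : ∀ᶠ j in (φ : Filter ℕ), (2 : ℝ) ≤ X j ^ δ :=
    ((tendsto_rpow_atTop hδ).comp hX).eventually_ge_atTop 2
  have hX2' : ∀ᶠ j in (φ : Filter ℕ), (2 : ℝ) ≤ X j ^ (δ / 2) :=
    ((tendsto_rpow_atTop (half_pos hδ)).comp hX).eventually_ge_atTop 2
  have hνq : ∀ᶠ j in (φ : Filter ℕ), P.nv v (σ (q j)) ≤ X j ^ (-δ) := by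
    filter_upwards [hL, hX0] with j h1 h2
    rw [hq, map_inv₀, P.inv hv, Real.rpow_neg h2.le]
    exact inv_anti₀ (Real.rpow_pos_of_pos h2 _) h1.le
  have hνq1 : ∀ᶠ j in (φ : Filter ℕ), P.nv v (σ (q j)) ≤ 1 := by
    filter_upwards [hνq, hX.eventually_ge_atTop 1] with j h1 h2
    exact h1.trans (Real.rpow_le_one_of_one_le_of_nonpos h2 (by linarith))
  filter_upwards [hx0, hs, hY, hX0, hX2, hX2', hL, hνq, pol_bd hp' hv σ hνq1 (δ / 2) (half_pos hδ),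
    pol_bd hR hv σ hνq1 δ hδ, s5 bD hbD v hv σ δ hδ, s6 bD hbD hbD0 v hv σ δ hδ,
    s6 (fun _ => (2 : M)) (s1 2) (Filter.Eventually.of_forall fun _ => two_ne_zero) v hv σ δ hδ]
    with j h1 h2 h3 h4 h5 h6 h7 h8 h9 h10 h11 h12 h13
  rw [Real.rpow_neg h4.le] at h12 h13
  have hνp : avf P hv σ (q j) * avf P hv σ (p' j) ≤ 1 / 2 := by
    rw [avf_apply, avf_apply]
    have e1 : X j ^ (-δ) * X j ^ (δ / 2) = (X j ^ (δ / 2))⁻¹ := by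
      rw [← Real.rpow_add h4, ← Real.rpow_neg h4.le]
      congr 1
      ring
    calc P.nv v (σ (q j)) * P.nv v (σ (p' j)) ≤ X j ^ (-δ) * X j ^ (δ / 2) :=
          mul_le_mul h8 h9 (P.nn _ _) (Real.rpow_nonneg h4.le _)
      _ = (X j ^ (δ / 2))⁻¹ := e1
      _ ≤ 1 / 2 := by
        rw [one_div]
        exact inv_anti₀ (by norm_num) h6
  have hνx : (1 : ℝ) ≤ avf P hv σ (x j) := by
    rw [avf_apply]
    linarith
  rcases le_total (P.nv v (σ (Y j - s j * p j))) (P.nv v (σ (Y j + s j * p j))) with hle | hle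
  · refine (min_le_left _ _).trans ?_
    exact abs_big (avf P hv σ) h5 h1 (hq j) rfl h2 (hp j) (hpp j) h3 hνx hνp h10 h11 h12 h13 hle
  · refine (min_le_right _ _).trans ?_
    exact abs_big' (avf P hv σ) h5 h1 (hq j) rfl h2 (hp j) (hpp j) h3 hνx hνp h10 h11 h12 h13 hle

/-- large places, even degree -/
theorem big_even {hSLW : ST_SLW} {hS : ∀ p ∈ S, p.Prime}
    {hX : Tendsto X (φ : Filter ℕ) atTop} {x q p p' R bD G Y β : ℕ → M} {m : ℕ} {δ : ℝ}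
    (hδ : 0 < δ) (hx0 : ∀ᶠ j in (φ : Filter ℕ), x j ≠ 0) (hq : ∀ j, q j = (x j)⁻¹)
    (hβ : ∀ᶠ j in (φ : Filter ℕ), β j ^ 2 = bD j)
    (hp : ∀ j, p j = 1 + q j * p' j) (hpp : ∀ j, p j ^ 2 = G j + q j ^ (m + 1) * R j)
    (hY : ∀ᶠ j in (φ : Filter ℕ), Y j ^ 2 = bD j * x j ^ (2 * m) * G j)
    (hp' : Pol (slA hSLW hS hX P) q p') (hR : Pol (slA hSLW hS hX P) q R)
    (hbD : Slw P φ X bD) (hbD0 : ∀ᶠ j in (φ : Filter ℕ), bD j ≠ 0)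
    {v : Option ℕ} (hv : v ∈ plc S) (σ : M ≃ₐ[ℚ] M)
    (hL : ∀ᶠ j in (φ : Filter ℕ), X j ^ δ < P.nv v (σ (x j))) :
    ∀ᶠ j in (φ : Filter ℕ), min (P.nv v (σ (Y j - β j * x j ^ m * p j)))
      (P.nv v (σ (Y j + β j * x j ^ m * p j))) ≤ (X j ^ δ) ^ 6 * P.nv v (σ (q j)) := by
  obtain ⟨s1, -, -, -, s5, s6, -⟩ := hSLW M S P φ X hS hX
  have hX0 := hX.eventually_gt_atTop 0
  have hX2 : ∀ᶠ j in (φ : Filter ℕ), (2 : ℝ) ≤ X j ^ δ :=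
    ((tendsto_rpow_atTop hδ).comp hX).eventually_ge_atTop 2
  have hX2' : ∀ᶠ j in (φ : Filter ℕ), (2 : ℝ) ≤ X j ^ (δ / 2) :=
    ((tendsto_rpow_atTop (half_pos hδ)).comp hX).eventually_ge_atTop 2
  have hνq : ∀ᶠ j in (φ : Filter ℕ), P.nv v (σ (q j)) ≤ X j ^ (-δ) := by
    filter_upwards [hL, hX0] with j h1 h2
    rw [hq, map_inv₀, P.inv hv, Real.rpow_neg h2.le]
    exact inv_anti₀ (Real.rpow_pos_of_pos h2 _) h1.le
  have hνq1 : ∀ᶠ j in (φ : Filter ℕ), P.nv v (σ (q j)) ≤ 1 := by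
    filter_upwards [hνq, hX.eventually_ge_atTop 1] with j h1 h2
    exact h1.trans (Real.rpow_le_one_of_one_le_of_nonpos h2 (by linarith))
  filter_upwards [hx0, hβ, hY, hX0, hX2, hX2', hνq, pol_bd hp' hv σ hνq1 (δ / 2) (half_pos hδ),
    pol_bd hR hv σ hνq1 δ hδ, s5 bD hbD v hv σ δ hδ, s6 bD hbD hbD0 v hv σ δ hδ,
    s6 (fun _ => (2 : M)) (s1 2) (Filter.Eventually.of_forall fun _ => two_ne_zero) v hv σ δ hδ]
    with j h1 h2 h3 h4 h5 h6 h8 h9 h10 h11 h12 h13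
  rw [Real.rpow_neg h4.le] at h12 h13
  have hνp : avf P hv σ (q j) * avf P hv σ (p' j) ≤ 1 / 2 := by
    rw [avf_apply, avf_apply]
    have e1 : X j ^ (-δ) * X j ^ (δ / 2) = (X j ^ (δ / 2))⁻¹ := by
      rw [← Real.rpow_add h4, ← Real.rpow_neg h4.le]
      congr 1
      ring
    calc P.nv v (σ (q j)) * P.nv v (σ (p' j)) ≤ X j ^ (-δ) * X j ^ (δ / 2) :=
          mul_le_mul h8 h9 (P.nn _ _) (Real.rpow_nonneg h4.le _)
      _ = (X j ^ (δ / 2))⁻¹ := e1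
      _ ≤ 1 / 2 := by
        rw [one_div]
        exact inv_anti₀ (by norm_num) h6
  rcases le_total (P.nv v (σ (Y j - β j * x j ^ m * p j)))
    (P.nv v (σ (Y j + β j * x j ^ m * p j))) with hle | hle
  · refine (min_le_left _ _).trans ?_
    exact abs_even (avf P hv σ) h5 h1 (hq j) rfl h2 (hp j) (hpp j) h3 hνp h10 h11 h12 h13 hle
  · refine (min_le_right _ _).trans ?_
    exact abs_even' (avf P hv σ) h5 h1 (hq j) rfl h2 (hp j) (hpp j) h3 hνp h10 h11 h12 h13 hle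

/-- places which are not large -/
theorem small_est (hSLW : ST_SLW) (hS : ∀ p ∈ S, p.Prime)
    (hX : Tendsto X (φ : Filter ℕ) atTop) {x Y : ℕ → M} {b : ℕ → ℕ → M} {D : ℕ} {δ : ℝ}
    (hδ : 0 < δ) (hb : ∀ i, Slw P φ X (b i))
    (hY : ∀ᶠ j in (φ : Filter ℕ), Y j ^ 2 = ∑ i ∈ range (D + 1), b i j * x j ^ i)
    {v : Option ℕ} (hv : v ∈ plc S) (σ : M ≃ₐ[ℚ] M)
    (hL : ∀ᶠ j in (φ : Filter ℕ), P.nv v (σ (x j)) ≤ X j ^ δ) :
    ∀ᶠ j in (φ : Filter ℕ), P.nv v (σ (Y j)) ≤ (X j ^ δ) ^ (D + 2) := by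
  obtain ⟨-, -, -, -, s5, -⟩ := hSLW M S P φ X hS hX
  have hbs : ∀ᶠ j in (φ : Filter ℕ), ∀ i ∈ range (D + 1), P.nv v (σ (b i j)) ≤ X j ^ δ := by
    rw [Filter.eventually_all_finset]
    intro i _
    exact s5 (b i) (hb i) v hv σ δ hδ
  have hXD : ∀ᶠ j in (φ : Filter ℕ), ((D + 1 : ℕ) : ℝ) ≤ X j ^ δ :=
    ((tendsto_rpow_atTop hδ).comp hX).eventually_ge_atTop _
  filter_upwards [hY, hL, hbs, hXD] with j h1 h2 h3 h4
  have h5 : (1 : ℝ) ≤ X j ^ δ := by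
    refine le_trans ?_ h4
    exact_mod_cast Nat.le_add_left 1 D
  have h6 := abs_small (avf P hv σ) h5 h5 h4 h1 h3 h2
  rw [avf_apply] at h6
  refine h6.trans (le_of_eq ?_)
  ring

/-- the product over all places -/
theorem prod_est (hSLW : ST_SLW) (hS : ∀ p ∈ S, p.Prime)
    (hX : Tendsto X (φ : Filter ℕ) atTop) {x T Y : ℕ → M} {b : ℕ → ℕ → M} {D : ℕ}
    (hb : ∀ i, Slw P φ X (b i))
    (hY : ∀ᶠ j in (φ : Filter ℕ), Y j ^ 2 = ∑ i ∈ range (D + 1), b i j * x j ^ i)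
    (hest : ∀ δ : ℝ, 0 < δ → ∀ v ∈ plc S, ∀ σ : M ≃ₐ[ℚ] M,
      (∀ᶠ j in (φ : Filter ℕ), X j ^ δ < P.nv v (σ (x j))) →
      ∀ᶠ j in (φ : Filter ℕ), min (P.nv v (σ (Y j - T j))) (P.nv v (σ (Y j + T j))) ≤
        (X j ^ δ) ^ 6 * P.nv v (σ ((x j)⁻¹)))
    {v₀ : Option ℕ} (hv₀ : v₀ ∈ plc S) (σ₀ : M ≃ₐ[ℚ] M) {ε : ℝ} (hε : 0 < ε)
    (hL₀ : ∀ᶠ j in (φ : Filter ℕ), X j ^ ε < P.nv v₀ (σ₀ (x j))) :
    ∃ δ : ℝ, ∀ᶠ j in (φ : Filter ℕ), ∏ v ∈ plc S, ∏ σ : M ≃ₐ[ℚ] M,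
      (open Classical in if (∀ᶠ j in (φ : Filter ℕ), X j ^ δ < P.nv v (σ (x j))) then
        min (P.nv v (σ (Y j - T j))) (P.nv v (σ (Y j + T j)))
        else P.nv v (σ (Y j))) ≤ X j ^ (-(ε / 2)) := by
  classical
  obtain ⟨N, hN⟩ : ∃ N : ℕ, N = (plc S).card * Fintype.card (M ≃ₐ[ℚ] M) := ⟨_, rfl⟩
  obtain ⟨δ, hδ⟩ : ∃ δ : ℝ, δ = ε / (2 * (((D + 6) * N : ℕ) + 1)) := ⟨_, rfl⟩
  have hN0 : (0 : ℝ) ≤ (((D + 6) * N : ℕ) : ℝ) := Nat.cast_nonneg _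
  have hδ0 : 0 < δ := by
    rw [hδ]
    positivity
  have hδN : δ * ((((D + 6) * N : ℕ) : ℝ) + 1) = ε / 2 := by
    rw [hδ]
    field_simp
  have hδε : δ ≤ ε := by nlinarith
  refine ⟨δ, ?_⟩
  have hX1 := hX.eventually_ge_atTop 1
  have hall : ∀ᶠ j in (φ : Filter ℕ), ∀ v ∈ plc S, ∀ σ : M ≃ₐ[ℚ] M,
      (if (∀ᶠ j in (φ : Filter ℕ), X j ^ δ < P.nv v (σ (x j))) then
        min (P.nv v (σ (Y j - T j))) (P.nv v (σ (Y j + T j)))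
        else P.nv v (σ (Y j))) ≤ (X j ^ δ) ^ (D + 6) := by
    rw [Filter.eventually_all_finset]
    intro v hv
    rw [Filter.eventually_all]
    intro σ
    by_cases hL : ∀ᶠ j in (φ : Filter ℕ), X j ^ δ < P.nv v (σ (x j))
    · filter_upwards [hest δ hδ0 v hv σ hL, hX1, hL] with j h1 h2 h3
      rw [if_pos hL]
      have h4 : (1 : ℝ) ≤ X j ^ δ := Real.one_le_rpow h2 hδ0.le
      have h5 : P.nv v (σ ((x j)⁻¹)) ≤ 1 := by
        rw [map_inv₀, P.inv hv]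
        exact inv_le_one_of_one_le₀ (by linarith)
      calc _ ≤ (X j ^ δ) ^ 6 * P.nv v (σ ((x j)⁻¹)) := h1
        _ ≤ (X j ^ δ) ^ 6 * 1 := mul_le_mul_of_nonneg_left h5 (by positivity)
        _ = (X j ^ δ) ^ 6 := mul_one _
        _ ≤ (X j ^ δ) ^ (D + 6) := pow_le_pow_right₀ h4 (by omega)
    · have hL' : ∀ᶠ j in (φ : Filter ℕ), P.nv v (σ (x j)) ≤ X j ^ δ := by
        rw [← Ultrafilter.eventually_not] at hL
        exact hL.mono fun j hj => not_lt.1 hj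
      filter_upwards [small_est hSLW hS hX hδ0 hb hY hv σ hL', hX1] with j h1 h2
      rw [if_neg hL]
      exact h1.trans (pow_le_pow_right₀ (Real.one_le_rpow h2 hδ0.le) (by omega))
  have hL₁ : ∀ᶠ j in (φ : Filter ℕ), X j ^ δ < P.nv v₀ (σ₀ (x j)) := by
    filter_upwards [hL₀, hX1] with j h1 h2
    exact lt_of_le_of_lt (Real.rpow_le_rpow_of_exponent_le h2 hδε) h1
  filter_upwards [hall, hX1, hL₀, hest δ hδ0 v₀ hv₀ σ₀ hL₁] with j h1 h2 h3 h4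
  have hX0 : 0 < X j := by linarith
  have h5 : (1 : ℝ) ≤ X j ^ δ := Real.one_le_rpow h2 hδ0.le
  have h6 : P.nv v₀ (σ₀ ((x j)⁻¹)) ≤ X j ^ (-ε) := by
    rw [map_inv₀, P.inv hv₀, Real.rpow_neg hX0.le]
    exact inv_anti₀ (Real.rpow_pos_of_pos hX0 _) h3.le
  have h7 := prod_places (S := S) (fun v σ =>
      (if (∀ᶠ j in (φ : Filter ℕ), X j ^ δ < P.nv v (σ (x j))) then
        min (P.nv v (σ (Y j - T j))) (P.nv v (σ (Y j + T j)))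
        else P.nv v (σ (Y j)))) ((X j ^ δ) ^ (D + 6)) (X j ^ (-ε)) (by positivity) v₀ hv₀ σ₀
    (by
      intro v _ σ
      split_ifs
      · exact le_min (P.nn _ _) (P.nn _ _)
      · exact P.nn _ _)
    (fun v hv σ => h1 v hv σ)
    (by
      rw [if_pos hL₁]
      calc _ ≤ (X j ^ δ) ^ 6 * P.nv v₀ (σ₀ ((x j)⁻¹)) := h4
        _ ≤ (X j ^ δ) ^ (D + 6) * X j ^ (-ε) :=
          mul_le_mul (pow_le_pow_right₀ h5 (by omega)) h6 (P.nn _ _) (by positivity))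
  refine h7.trans ?_
  rw [← hN, ← pow_mul, ← Real.rpow_natCast, ← Real.rpow_mul hX0.le, ← Real.rpow_add hX0]
  refine Real.rpow_le_rpow_of_exponent_le h2 ?_
  nlinarith

end

end Pool.Agent.Helper17.T4
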