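import Mathlib

/-!
MP_2a8cc2_nt: adjoining the square roots of the elements of a finitely generated group.
-/

set_option autoImplicit false

namespace Pool.Agent.Helper17.T4

/-- a number field in which all the elements of `Γ` are squares -/
theorem exists_sqrt (K : Type) [Field K] [NumberField K] (Γ : Subgroup Kˣ) (hΓ : Γ.FG) :
    ∃ (L : Type) (_ : Field L) (_ : NumberField L) (f : K →+* L),
      ∀ γ ∈ Γ, ∃ g : L, g ^ 2 = f (γ : K) := by
  obtain ⟨s, hs⟩ := hΓ
  have hr : ∀ a : K, ∃ g : AlgebraicClosure K, g ^ 2 = algebraMap K (AlgebraicClosure K) a :=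
    fun a => IsAlgClosed.exists_pow_nat_eq _ (by norm_num)
  choose r hr using hr
  obtain ⟨E, hE⟩ : ∃ E : IntermediateField K (AlgebraicClosure K), E =
    IntermediateField.adjoin K ((fun u : Kˣ => r (u : K)) '' (s : Set Kˣ)) := ⟨_, rfl⟩
  have hfin : Finite ((fun u : Kˣ => r (u : K)) '' (s : Set Kˣ)) :=
    (s.finite_toSet.image _).to_subtype
  have hEf : FiniteDimensional K E := by
    rw [hE]
    exact IntermediateField.finiteDimensional_adjoin fun x _ => Algebra.IsIntegral.isIntegral x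
  have hmem : ∀ γ ∈ Γ, ∃ g ∈ E, g ^ 2 = algebraMap K (AlgebraicClosure K) (γ : K) := by
    intro γ hγ
    rw [← hs] at hγ
    induction hγ using Subgroup.closure_induction with
    | mem x hx =>
      refine ⟨r (x : K), ?_, hr _⟩
      rw [hE]
      exact IntermediateField.subset_adjoin K _ ⟨x, hx, rfl⟩
    | one => exact ⟨1, E.one_mem, by simp⟩
    | mul x y _ _ hx hy =>
      obtain ⟨g, hg, hg2⟩ := hx
      obtain ⟨g', hg', hg2'⟩ := hy
      exact ⟨g * g', E.mul_mem hg hg', by rw [mul_pow, hg2, hg2', Units.val_mul, map_mul]⟩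
    | inv x _ hx =>
      obtain ⟨g, hg, hg2⟩ := hx
      exact ⟨g⁻¹, E.inv_mem hg, by rw [inv_pow, hg2, Units.val_inv_eq_inv_val, map_inv₀]⟩
  have hN : NumberField E := NumberField.of_module_finite K E
  refine ⟨E, inferInstance, hN, algebraMap K E, fun γ hγ => ?_⟩
  obtain ⟨g, hg, hg2⟩ := hmem γ hγ
  refine ⟨⟨g, hg⟩, ?_⟩
  apply Subtype.ext
  exact hg2

end Pool.Agent.Helper17.T4
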