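import Pool.Agent.Helper17.T4.Main
import Pool.Agent.Helper17.T4.Fld
import Pool.Agent.Helper9.MTK.Fin
import Pool.Agent.Helper9.MTK.IndK

/-!
MP_2a8cc2_nt: from the theorem along an ultrafilter to the final statement.
-/

set_option autoImplicit false

namespace Pool.Agent.Helper17.T4

open Finset Filter Polynomial Pool.Agent.Helper70.SUB Pool.Agent.Helper77.SUBK
  Pool.Agent.Helper70.SUBW Pool.Agent.Helper9.MTK Height

/-- `a` is an element of `Γ` times a square -/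
def SqCl {K : Type} [Field K] (Γ : Subgroup Kˣ) (a : K) : Prop :=
  ∃ γ ∈ Γ, ∃ b : K, a = (γ : K) * b ^ 2

/-- `x` is a sum of `t` terms, or `1 / (x - e)` is one, or `x - e` is one term; and the curve has
a suitable point above `∞`, above `e`, above `∞` -/
def Adm {K : Type} [Field K] (h : K → ℝ) (Γ : Subgroup Kˣ) (t d : ℕ) (B : ℝ) (F : K[X])
    (x : K) : Prop :=
  (Even d ∧ SqCl Γ (F.coeff d) ∧ Sp h Γ t B x) ∨
  (∃ e z : K, h e ≤ B ∧ F.eval e ≠ 0 ∧ SqCl Γ (F.eval e) ∧ Sp h Γ t B z ∧ z ≠ 0 ∧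
    x = e + 1 / z) ∨
  (∃ e c : K, ∃ γ ∈ Γ, h e ≤ B ∧ h c ≤ B ∧ SqCl Γ (F.coeff d * (c * (γ : K)) ^ d) ∧
    x = e + c * (γ : K))

/-- (T5) the second coordinate is arbitrary -/
def ST_T5 : Prop := ∀ (K : Type) [Field K] [NumberField K] (h : K → ℝ),
  (∀ a : K, h a =
    ((∑ w : NumberField.InfinitePlace K, (w.mult : ℝ) * Real.log (max 1 (w a))) +
      ∑ᶠ v : NumberField.FinitePlace K, Real.log (max 1 (v a))) /
      (Module.finrank ℚ K : ℝ)) →
  ∀ (Γ : Subgroup Kˣ) (t d : ℕ) (κ : ℝ), Γ.FG → 5 ≤ d →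
  ∃ C₁ C₂ : ℝ, 0 < C₁ ∧ 0 < C₂ ∧ ∀ F : K[X], F.natDegree = d → F.Separable →
    ∀ x y : K, y ^ 2 = F.eval x → ∀ H : ℝ, (∀ i : ℕ, h (F.coeff i) ≤ H) →
      Adm h Γ t d (κ * (H + 1)) F x → h x ≤ C₁ * H + C₂

theorem t5 (hSLW : ST_SLW) (hSPW : ST_SPW) (hSVB : ST_SVB) (hPRK : ST_PRK) (hDEN : ST_DEN)
    (hAV : ST_AV) (hSUB : ST_SUBTU) (hPFX : ST_PFX) (hHSL : ST_HSL) (hHBM : ST_HBM)
    (hHC : ST_HC) (hINDK : ST_INDK) (hGEOL : ST_GEOL) : ST_T5 := by
  intro K _ _ h hh Γ t d κ hΓ hd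
  by_contra hcon
  push Not at hcon
  have hlog := log_h K h hh
  obtain ⟨D, hD⟩ : ∃ D : ℝ, D = (Module.finrank ℚ K : ℝ) := ⟨_, rfl⟩
  have hD0 : 0 < D := by
    rw [hD]
    exact_mod_cast Module.finrank_pos
  rw [← hD] at hlog
  have hh0 : ∀ a : K, 0 ≤ h a := by
    intro a
    have h1 := Real.log_nonneg (one_le_mulHeight₁ a)
    rw [hlog] at h1
    exact nonneg_of_mul_nonneg_left h1 hD0
  obtain ⟨L, _, _, f1, hf1⟩ := exists_sqrt K Γ hΓ
  obtain ⟨M, _, _, _, ⟨f2⟩⟩ := exists_gal L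
  obtain ⟨f, hf⟩ : ∃ f : K →+* M, f = f2.comp f1 := ⟨_, rfl⟩
  obtain ⟨S, hS, hSΓ⟩ := (hSVB K).2.2.2.2.2.2.2.2.2.2.2 Γ hΓ
  have hSf : ∀ γ ∈ Γ, SV S (f (γ : K)) := fun γ hγ =>
    ((hSVB K).2.2.2.2.2.2.2.2.2.2.1 M f S _).2 (hSΓ γ hγ)
  have hsq : ∀ γ ∈ Γ, ∃ g : M, g ^ 2 = f (γ : K) ∧ SV S g := by
    intro γ hγ
    obtain ⟨g, hg⟩ := hf1 γ hγ
    have h1 : (f2 g) ^ 2 = f (γ : K) := by
      rw [← map_pow, hg, hf]
      rfl
    refine ⟨f2 g, h1, sv_of_sq ?_⟩
    rw [h1]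
    exact hSf γ hγ
  obtain ⟨P⟩ := hPFX M S hS
  obtain ⟨A, hA1, hA⟩ := hHC K M f
  choose F hFd hFs x y hxy H hH hadm hlt using fun n : ℕ => hcon ((n : ℝ) + 1) ((n : ℝ) + 1)
    (by positivity) (by positivity)
  have hH0 : ∀ n, 0 ≤ H n := fun n => (hh0 _).trans (hH n 0)
  have hAr : (1 : ℝ) ≤ (A : ℝ) := by exact_mod_cast hA1
  obtain ⟨X, hXdef⟩ : ∃ X : ℕ → ℝ, X = fun n => mulHeight₁ (f (x n)) := ⟨_, rfl⟩
  have hX1 : ∀ n, 1 ≤ X n := fun n => by rw [hXdef]; exact one_le_mulHeight₁ _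
  -- logarithms of heights in the two fields
  have hlogf : ∀ a : K, Real.log (mulHeight₁ (f a)) ≤ A * (h a * D) := by
    intro a
    rw [← hlog, ← Real.log_pow]
    exact Real.log_le_log (mulHeight₁_pos _) (hA a).1
  have hlogf' : ∀ a : K, h a * D ≤ A * Real.log (mulHeight₁ (f a)) := by
    intro a
    rw [← hlog, ← Real.log_pow]
    exact Real.log_le_log (mulHeight₁_pos _) (hA a).2
  have hlX : ∀ n : ℕ, ((n : ℝ) + 1) * (H n + 1) * D ≤ A * Real.log (X n) := by
    intro n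
    have h1 := hlogf' (x n)
    rw [hXdef]
    refine le_trans ?_ h1
    refine mul_le_mul_of_nonneg_right ?_ hD0.le
    have h2 := hlt n
    linarith
  have hle : ((hyperfilter ℕ : Ultrafilter ℕ) : Filter ℕ) ≤ atTop := by
    rw [← Nat.cofinite_eq_atTop]
    exact hyperfilter_le_cofinite
  obtain ⟨φ, hφ⟩ : ∃ φ : Ultrafilter ℕ, φ = hyperfilter ℕ := ⟨_, rfl⟩
  rw [← hφ] at hle
  have hXt : Tendsto X (φ : Filter ℕ) atTop := by
    refine Tendsto.mono_left ?_ hle
    have h1 : ∀ n : ℕ, (D / A) * (n : ℝ) ≤ X n := by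
      intro n
      have h2 := hlX n
      have h3 : Real.log (X n) ≤ X n := by
        have := Real.log_le_sub_one_of_pos (lt_of_lt_of_le one_pos (hX1 n))
        linarith
      have h4 : (n : ℝ) * D ≤ A * X n := by
        have h5 : (n : ℝ) * D ≤ ((n : ℝ) + 1) * (H n + 1) * D := by
          refine mul_le_mul_of_nonneg_right ?_ hD0.le
          have h6 := hH0 n
          have h7 : (0 : ℝ) ≤ n := Nat.cast_nonneg n
          nlinarith
        have h6 : (A : ℝ) * Real.log (X n) ≤ A * X n :=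
          mul_le_mul_of_nonneg_left h3 (by linarith)
        linarith
      rw [div_mul_eq_mul_div, div_le_iff₀ (by linarith)]
      linarith
    exact tendsto_atTop_mono h1
      (Tendsto.const_mul_atTop (by positivity) tendsto_natCast_atTop_atTop)
  obtain ⟨κ', hκ1, hκ2⟩ : ∃ κ' : ℝ, κ ≤ κ' ∧ 1 ≤ κ' := ⟨max κ 1, le_max_left _ _, le_max_right _ _⟩
  have hslow : ∀ z : ℕ → K, (∀ n, h (z n) ≤ κ' * (H n + 1)) →
      Slw P φ X (fun n => f (z n)) := by
    intro z hz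
    rw [hHSL M S P φ X hS hXt]
    intro ε hε
    refine hle ?_
    filter_upwards [Filter.eventually_ge_atTop ⌈κ' * A * A / ε⌉₊] with n hn
    have hn' : κ' * A * A / ε ≤ (n : ℝ) + 1 := by
      have h1 := Nat.le_ceil (κ' * A * A / ε)
      have h2 : ((⌈κ' * A * A / ε⌉₊ : ℕ) : ℝ) ≤ n := by exact_mod_cast hn
      linarith
    rw [div_le_iff₀ hε] at hn'
    have hlX0 : 0 ≤ Real.log (X n) := Real.log_nonneg (hX1 n)
    have h1 : Real.log (mulHeight₁ (f (z n))) ≤ ε * Real.log (X n) := by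
      have h2 : Real.log (mulHeight₁ (f (z n))) ≤ A * (κ' * (H n + 1) * D) := by
        refine (hlogf (z n)).trans (mul_le_mul_of_nonneg_left ?_ (by linarith))
        exact mul_le_mul_of_nonneg_right (hz n) hD0.le
      have h3 := hlX n
      have h4 : ((n : ℝ) + 1) * Real.log (mulHeight₁ (f (z n))) ≤
          ((n : ℝ) + 1) * (ε * Real.log (X n)) := by
        calc ((n : ℝ) + 1) * Real.log (mulHeight₁ (f (z n)))
            ≤ ((n : ℝ) + 1) * (A * (κ' * (H n + 1) * D)) :=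
              mul_le_mul_of_nonneg_left h2 (by positivity)
          _ = A * κ' * (((n : ℝ) + 1) * (H n + 1) * D) := by ring
          _ ≤ A * κ' * (A * Real.log (X n)) :=
              mul_le_mul_of_nonneg_left h3 (mul_nonneg (by linarith) (by linarith))
          _ = (κ' * A * A) * Real.log (X n) := by ring
          _ ≤ (((n : ℝ) + 1) * ε) * Real.log (X n) := mul_le_mul_of_nonneg_right hn' hlX0
          _ = ((n : ℝ) + 1) * (ε * Real.log (X n)) := by ring
      exact le_of_mul_le_mul_left h4 (by positivity)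
    have h5 : 0 < X n := lt_of_lt_of_le one_pos (hX1 n)
    rw [Real.rpow_def_of_pos h5]
    calc mulHeight₁ (f (z n)) = Real.exp (Real.log (mulHeight₁ (f (z n)))) :=
          (Real.exp_log (mulHeight₁_pos _)).symm
      _ ≤ Real.exp (Real.log (X n) * ε) := Real.exp_le_exp.2 (by linarith)
  have hspa : ∀ z : ℕ → K, (∀ᶠ n in (φ : Filter ℕ), Sp h Γ t (κ * (H n + 1)) (z n)) →
      Spa P φ X (fun n => f (z n)) := by
    intro z hz
    have h1 : ∀ n, ∃ (c : Fin t → K) (γ : Fin t → Kˣ), (∀ i, h (c i) ≤ κ' * (H n + 1)) ∧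
        (∀ i, γ i ∈ Γ) ∧ (Sp h Γ t (κ * (H n + 1)) (z n) → z n = ∑ i, c i * (γ i : K)) := by
      intro n
      by_cases h2 : Sp h Γ t (κ * (H n + 1)) (z n)
      · obtain ⟨c, γ, hc, hγ, hs⟩ := h2
        exact ⟨c, γ, fun i => (hc i).trans
          (mul_le_mul_of_nonneg_right hκ1 (by linarith [hH0 n])), hγ, fun _ => hs⟩
      · refine ⟨fun _ => (F n).coeff 0, fun _ => 1, fun i => (hH n 0).trans ?_,
          fun _ => Γ.one_mem, fun h3 => absurd h3 h2⟩
        have := hH0 n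
        nlinarith
    choose c γ hc hγ hs using h1
    refine ⟨t, fun i n => f (c n i), fun i n => f (γ n i : K), fun i => hslow _ fun n => hc n i,
      fun i => Filter.Eventually.of_forall fun n => hSf _ (hγ n i), ?_⟩
    filter_upwards [hz] with n hn
    rw [hs n hn, map_sum]
    exact Finset.sum_congr rfl fun i _ => by rw [map_mul]
  have hsqc : ∀ a : K, SqCl Γ a → ∃ β : M, f a = β ^ 2 := by
    rintro a ⟨γ', hγ', b, hb⟩
    obtain ⟨g', hg', -⟩ := hsq γ' hγ'
    exact ⟨g' * f b, by rw [hb, map_mul, map_pow, ← hg', mul_pow]⟩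
  have hxh : ∀ n : ℕ, κ' ≤ (n : ℝ) + 1 → ∀ a : K, h a ≤ κ' * (H n + 1) → x n ≠ a := by
    intro n hn a ha hxa
    have h1 := hlt n
    rw [hxa] at h1
    have h2 : κ' * (H n + 1) ≤ ((n : ℝ) + 1) * (H n + 1) :=
      mul_le_mul_of_nonneg_right hn (by linarith [hH0 n])
    linarith
  have hlarge : ∀ᶠ n : ℕ in (φ : Filter ℕ), κ' ≤ (n : ℝ) + 1 := by
    refine hle ?_
    filter_upwards [Filter.eventually_ge_atTop ⌈κ'⌉₊] with n hn
    have h1 := Nat.le_ceil κ'
    have h2 : ((⌈κ'⌉₊ : ℕ) : ℝ) ≤ n := by exact_mod_cast hn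
    linarith
  have hh00 : h 0 = 0 := by
    have h2 : h 0 * D = 0 := by
      rw [← hlog, mulHeight₁_zero, Real.log_one]
    rcases mul_eq_zero.1 h2 with h4 | h4
    · exact h4
    · exact absurd h4 hD0.ne'
  have hκH : ∀ n, 0 ≤ κ' * (H n + 1) := fun n =>
    mul_nonneg (by linarith) (by linarith [hH0 n])
  have hx0 : ∀ᶠ n in (φ : Filter ℕ), f (x n) ≠ 0 := by
    filter_upwards [hlarge] with n hn
    exact (map_ne_zero f).2 (hxh n hn 0 (by rw [hh00]; exact hκH n))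
  -- the height of `x - e`
  have hsub : ∀ e : ℕ → K, (∀ n, h (e n) ≤ κ' * (H n + 1)) →
      ∀ᶠ n in (φ : Filter ℕ), mulHeight₁ (f (x n) - f (e n)) ≤ X n ^ (3 : ℝ) := by
    intro e he
    have h1 := (hHSL M S P φ X hS hXt _).1 (hslow e he) 1 one_pos
    filter_upwards [h1, hXt.eventually_ge_atTop (2 ^ totalWeight M)] with n h2 h3
    rw [Real.rpow_one] at h2
    have h4 : (0 : ℝ) < X n := lt_of_lt_of_le one_pos (hX1 n)
    have h5 : mulHeight₁ (f (x n)) = X n := by rw [hXdef]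
    calc mulHeight₁ (f (x n) - f (e n))
        ≤ 2 ^ totalWeight M * mulHeight₁ (f (x n)) * mulHeight₁ (f (e n)) :=
          mulHeight₁_sub_le _ _
      _ ≤ X n * X n * X n := by
          rw [h5]
          exact mul_le_mul (mul_le_mul_of_nonneg_right h3 h4.le) h2 (mulHeight₁_nonneg _)
            (by positivity)
      _ = X n ^ (3 : ℝ) := by
          have h6 : X n ^ (3 : ℝ) = X n ^ (3 : ℕ) := by
            rw [← Real.rpow_natCast]
            norm_num
          rw [h6]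
          ring
  have hcases : Cases P φ X d (fun n => (F n).map f) (fun n => f (x n)) := by
    have h1 : (∀ᶠ n in (φ : Filter ℕ), Even d ∧ SqCl Γ ((F n).coeff d) ∧
        Sp h Γ t (κ * (H n + 1)) (x n)) ∨
        (∀ᶠ n in (φ : Filter ℕ), (∃ e z : K, h e ≤ κ * (H n + 1) ∧ (F n).eval e ≠ 0 ∧
          SqCl Γ ((F n).eval e) ∧ Sp h Γ t (κ * (H n + 1)) z ∧ z ≠ 0 ∧ x n = e + 1 / z)) ∨
        (∀ᶠ n in (φ : Filter ℕ), (∃ e c : K, ∃ γ ∈ Γ, h e ≤ κ * (H n + 1) ∧
          h c ≤ κ * (H n + 1) ∧ SqCl Γ ((F n).coeff d * (c * (γ : K)) ^ d) ∧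
          x n = e + c * (γ : K))) := by
      rw [← Ultrafilter.eventually_or, ← Ultrafilter.eventually_or]
      exact Filter.Eventually.of_forall hadm
    have hκκ : ∀ n (a : K), h a ≤ κ * (H n + 1) → h a ≤ κ' * (H n + 1) := fun n a ha =>
      ha.trans (mul_le_mul_of_nonneg_right hκ1 (by linarith [hH0 n]))
    rcases h1 with h1 | h1 | h1
    · -- first case
      refine Or.inl ?_
      have h2 : ∀ n, ∃ β : M, SqCl Γ ((F n).coeff d) → f ((F n).coeff d) = β ^ 2 := by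
        intro n
        by_cases h3 : SqCl Γ ((F n).coeff d)
        · obtain ⟨β, hβ⟩ := hsqc _ h3
          exact ⟨β, fun _ => hβ⟩
        · exact ⟨0, fun h4 => absurd h4 h3⟩
      choose β hβ using h2
      refine ⟨β, ?_, hspa x (h1.mono fun n hn => hn.2.2), ?_⟩
      · obtain ⟨n, hn⟩ := h1.exists
        exact hn.1
      · filter_upwards [h1] with n hn
        rw [coeff_map]
        exact hβ n hn.2.1
    · -- second case
      refine Or.inr (Or.inl ?_)
      have h2 : ∀ n, ∃ (e z : K) (β : M), h e ≤ κ' * (H n + 1) ∧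
          ((∃ e z : K, h e ≤ κ * (H n + 1) ∧ (F n).eval e ≠ 0 ∧
          SqCl Γ ((F n).eval e) ∧ Sp h Γ t (κ * (H n + 1)) z ∧ z ≠ 0 ∧ x n = e + 1 / z) →
          (F n).eval e ≠ 0 ∧ f ((F n).eval e) = β ^ 2 ∧ Sp h Γ t (κ * (H n + 1)) z ∧
            z ≠ 0 ∧ x n = e + 1 / z) := by
        intro n
        by_cases h3 : ∃ e z : K, h e ≤ κ * (H n + 1) ∧ (F n).eval e ≠ 0 ∧
          SqCl Γ ((F n).eval e) ∧ Sp h Γ t (κ * (H n + 1)) z ∧ z ≠ 0 ∧ x n = e + 1 / z
        · obtain ⟨e, z, h4, h5, h6, h7, h8, h9⟩ := h3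
          obtain ⟨β, hβ⟩ := hsqc _ h6
          exact ⟨e, z, β, hκκ n e h4, fun _ => ⟨h5, hβ, h7, h8, h9⟩⟩
        · exact ⟨0, 0, 0, by rw [hh00]; exact hκH n, fun h4 => absurd h4 h3⟩
      choose e z β he hz using h2
      refine ⟨3, fun n => f (e n), fun n => f (z n), β, hslow e he,
        hspa z (h1.mono fun n hn => (hz n hn).2.2.1), ?_, ?_⟩
      · filter_upwards [h1, hsub e he] with n hn h3
        obtain ⟨-, -, -, hz0, hxz⟩ := hz n hn
        have h4 : f (z n) = (f (x n) - f (e n))⁻¹ := by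
          rw [← map_sub, hxz, add_sub_cancel_left, one_div, map_inv₀, inv_inv]
        rw [h4, mulHeight₁_inv]
        exact h3
      · filter_upwards [h1] with n hn
        obtain ⟨h3, h4, -, h6, h7⟩ := hz n hn
        refine ⟨(map_ne_zero f).2 h6, by rw [h7, map_add, one_div, map_inv₀], ?_, ?_⟩
        · rw [eval_map, eval₂_at_apply]
          exact (map_ne_zero f).2 h3
        · rw [eval_map, eval₂_at_apply]
          exact h4
    · -- third case
      refine Or.inr (Or.inr ?_)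
      have h2 : ∀ n, ∃ (e c : K) (γ : Kˣ) (β : M), h e ≤ κ' * (H n + 1) ∧
          h c ≤ κ' * (H n + 1) ∧ γ ∈ Γ ∧
          ((∃ e c : K, ∃ γ ∈ Γ, h e ≤ κ * (H n + 1) ∧
          h c ≤ κ * (H n + 1) ∧ SqCl Γ ((F n).coeff d * (c * (γ : K)) ^ d) ∧
          x n = e + c * (γ : K)) →
          f ((F n).coeff d * (c * (γ : K)) ^ d) = β ^ 2 ∧ x n = e + c * (γ : K)) := by
        intro n
        by_cases h3 : ∃ e c : K, ∃ γ ∈ Γ, h e ≤ κ * (H n + 1) ∧
          h c ≤ κ * (H n + 1) ∧ SqCl Γ ((F n).coeff d * (c * (γ : K)) ^ d) ∧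
          x n = e + c * (γ : K)
        · obtain ⟨e, c, γ, hγ, h4, h5, h6, h7⟩ := h3
          obtain ⟨β, hβ⟩ := hsqc _ h6
          exact ⟨e, c, γ, β, hκκ n e h4, hκκ n c h5, hγ, fun _ => ⟨hβ, h7⟩⟩
        · exact ⟨0, 0, 1, 0, by rw [hh00]; exact hκH n, by rw [hh00]; exact hκH n, Γ.one_mem,
            fun h4 => absurd h4 h3⟩
      choose e c γ β he hc hγ hz using h2
      choose g hg hgS using fun n => hsq (γ n) (hγ n)
      refine ⟨3, fun n => f (e n), fun n => f (c n * (γ n : K)), fun n => f (c n), g, β,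
        hslow e he, hslow c hc, Filter.Eventually.of_forall hgS, ?_, ?_⟩
      · filter_upwards [h1, hsub e he] with n hn h3
        obtain ⟨-, hxz⟩ := hz n hn
        have h4 : f (c n * (γ n : K)) = f (x n) - f (e n) := by
          rw [← map_sub, hxz, add_sub_cancel_left]
        rw [h4]
        exact h3
      · filter_upwards [h1, hlarge] with n hn hn2
        obtain ⟨h3, h4⟩ := hz n hn
        refine ⟨?_, by rw [h4, map_add], by rw [hg, map_mul], ?_⟩
        · rw [Ne, map_eq_zero]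
          intro h5
          rw [h5, add_zero] at h4
          exact hxh n hn2 (e n) (he n) h4
        · rw [coeff_map, ← map_pow, ← map_mul]
          exact h3
  have hmain := mainT5 (P := P) (φ := φ) hSLW hSPW hSVB hPRK hDEN hAV hHSL hHBM hSUB hINDK hGEOL
    hS hXt d hd (fun n => (F n).map f) (fun n => f (x n)) (fun n => f (y n))
    (Filter.Eventually.of_forall fun n => by rw [natDegree_map, hFd])
    (Filter.Eventually.of_forall fun n => (hFs n).map)
    (fun i => by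
      simp only [coeff_map]
      refine hslow _ fun n => (hH n i).trans ?_
      have := hH0 n
      nlinarith)
    hx0
    (Filter.Eventually.of_forall fun n => by rw [← map_pow, hxy, eval_map, eval₂_at_apply])
    (Filter.Eventually.of_forall fun n => by
      rw [hXdef, Real.rpow_one])
    hcases
  have h1 := (hHSL M S P φ X hS hXt _).1 hmain (1 / 2) (by norm_num)
  obtain ⟨j, hj1, hj2⟩ := (h1.and (hXt.eventually_gt_atTop 1)).exists
  have h2 : X j ^ (1 / 2 : ℝ) < X j ^ (1 : ℝ) := Real.rpow_lt_rpow_of_exponent_lt hj2 (by norm_num)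
  rw [Real.rpow_one] at h2
  have h3 : mulHeight₁ (f (x j)) = X j := by rw [hXdef]
  rw [h3] at hj1
  linarith

end Pool.Agent.Helper17.T4
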