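import Pool.Agent.Helper17.T4.Close
import Pool.Agent.Helper9.MTK.Main

/-!
MP_2a8cc2_nt: the theorem along an ultrafilter.
-/

set_option autoImplicit false

namespace Pool.Agent.Helper17.T4

open Filter Finset Polynomial Pool.Agent.Helper70.SUB Pool.Agent.Helper77.SUBK
  Pool.Agent.Helper70.SUBW Pool.Agent.Helper9.MTK Height

section

variable {M : Type} [Field M]

theorem reflect_id {D : ℕ} {x q Y : M} {b f : ℕ → M} (hx : x ≠ 0) (hq : q = x⁻¹)
    (hb0 : b D ≠ 0) (hf : ∀ i, f i = if i = 0 then 1 else b (D - i) / b D)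
    (hY : Y ^ 2 = ∑ i ∈ range (D + 1), b i * x ^ i) :
    Y ^ 2 = b D * x ^ D * ∑ i ∈ range (D + 1), f i * q ^ i := by
  rw [hY, Finset.mul_sum, ← Finset.sum_range_reflect (fun i => b i * x ^ i)]
  refine Finset.sum_congr rfl fun i hi => ?_
  have hi' : i ≤ D := by
    have := Finset.mem_range.1 hi
    omega
  have h1 : D + 1 - 1 - i = D - i := by omega
  have h2 : x ^ D = x ^ (D - i) * x ^ i := by
    rw [← pow_add]
    congr 1
    omega
  have h3 : x ^ i * q ^ i = 1 := by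
    rw [hq, ← mul_pow, mul_inv_cancel₀ hx, one_pow]
  rw [h1, h2]
  by_cases h0 : i = 0
  · subst h0
    rw [hf, if_pos rfl, Nat.sub_zero, pow_zero, pow_zero, mul_one, mul_one, mul_one]
  · rw [hf, if_neg h0]
    calc b (D - i) * x ^ (D - i) = b (D - i) * x ^ (D - i) * (x ^ i * q ^ i) := by
          rw [h3, mul_one]
      _ = b D * (x ^ (D - i) * x ^ i) * (b (D - i) / b D * q ^ i) := by
          field_simp

end

section

variable {M : Type} [Field M] [NumberField M] [IsGalois ℚ M] {S : Finset ℕ} {P : PF S M}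
  {φ : Ultrafilter ℕ} {X : ℕ → ℝ}

/-- the approximate square root of `G z / (b_D z ^ D)` in terms of `q = 1 / z` -/
theorem sqrt_data (hSLW : ST_SLW) (hS : ∀ p ∈ S, p.Prime)
    (hX : Tendsto X (φ : Filter ℕ) atTop) (D K : ℕ) (b : ℕ → ℕ → M) (z Y : ℕ → M)
    (hb : ∀ i, Slw P φ X (b i)) (hz0 : ∀ᶠ j in (φ : Filter ℕ), z j ≠ 0)
    (hbD0 : ∀ᶠ j in (φ : Filter ℕ), b D j ≠ 0)
    (hY : ∀ᶠ j in (φ : Filter ℕ), Y j ^ 2 = ∑ i ∈ range (D + 1), b i j * z j ^ i) :
    ∃ (e : ℕ → ℕ → M) (q p p' R G : ℕ → M), (∀ i, Slw P φ X (e i)) ∧ (∀ j, q j = (z j)⁻¹) ∧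
      (∀ j, p j = ∑ i ∈ range (K + 1), e i j * q j ^ i) ∧ (∀ j, p j = 1 + q j * p' j) ∧
      (∀ j, p j ^ 2 = G j + q j ^ (K + 1) * R j) ∧ Pol (slA hSLW hS hX P) q p' ∧
      Pol (slA hSLW hS hX P) q R ∧
      ∀ᶠ j in (φ : Filter ℕ), Y j ^ 2 = b D j * z j ^ D * G j := by
  obtain ⟨s1, s2, s3, -⟩ := hSLW M S P φ X hS hX
  obtain ⟨q, hq⟩ : ∃ q : ℕ → M, ∀ j, q j = (z j)⁻¹ := ⟨_, fun _ => rfl⟩
  obtain ⟨f, hf⟩ : ∃ f : ℕ → ℕ → M, ∀ i j, f i j = if i = 0 then 1 else b (D - i) j / b D j :=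
    ⟨_, fun _ _ => rfl⟩
  have hfA : ∀ i, f i ∈ slA hSLW hS hX P := by
    intro i
    rw [mem_slA]
    by_cases hi : i = 0
    · have h1 : f i = fun _ => (1 : M) := by
        funext j
        rw [hf, if_pos hi]
      rw [h1]
      exact s1 1
    · have h1 : f i = fun j => b (D - i) j * (b D j)⁻¹ := by
        funext j
        rw [hf, if_neg hi, div_eq_mul_inv]
      rw [h1]
      exact (s2 _ _ (hb (D - i)) (s3 _ (hb D))).2
  have hhA : (fun _ : ℕ => (2 : M)⁻¹) ∈ slA hSLW hS hX P := s1 _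
  have hh2 : (2 : ℕ → M) * (fun _ : ℕ => (2 : M)⁻¹) = 1 := by
    funext j
    exact mul_inv_cancel₀ two_ne_zero
  have hf0 : f 0 = 1 := by
    funext j
    rw [hf, if_pos rfl]
    rfl
  obtain ⟨e, p', R, he, hpe, hp', hR, hpR⟩ := Pol.sqrt' (q := q) hhA hh2 f hfA hf0 D K
  refine ⟨e, q, 1 + q * p', p', R, ∑ i ∈ range (D + 1), f i * q ^ i, he, hq, fun j => ?_,
    fun j => rfl, fun j => congrFun hpR j, hp', hR, ?_⟩
  · rw [hpe, Finset.sum_apply]
    rfl
  · filter_upwards [hY, hz0, hbD0] with j h1 h3 h4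
    rw [reflect_id (b := fun i => b i j) (f := fun i => f i j) h3 (hq j) h4 (fun i => hf i j) h1,
      Finset.sum_apply]
    rfl

/-- one term, the leading term is a square -/
theorem odd_spa (hSLW : ST_SLW) (hSPW : ST_SPW) (hSVB : ST_SVB) (hPRK : ST_PRK) (hDEN : ST_DEN)
    (hAV : ST_AV) (hSUB : ST_SUBTU) (hINDK : ST_INDK) (hS : ∀ p ∈ S, p.Prime)
    (hX : Tendsto X (φ : Filter ℕ) atTop) (D : ℕ) (b : ℕ → ℕ → M) (z Y c g β : ℕ → M)
    (hb : ∀ i, Slw P φ X (b i)) (hc : Slw P φ X c)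
    (hg : ∀ᶠ j in (φ : Filter ℕ), SV S (g j))
    (hz : ∀ᶠ j in (φ : Filter ℕ), z j = c j * g j ^ 2) (hz0 : ∀ᶠ j in (φ : Filter ℕ), z j ≠ 0)
    (hbD0 : ∀ᶠ j in (φ : Filter ℕ), b D j ≠ 0)
    (hβ : ∀ᶠ j in (φ : Filter ℕ), b D j * z j ^ D = β j ^ 2)
    (hY : ∀ᶠ j in (φ : Filter ℕ), Y j ^ 2 = ∑ i ∈ range (D + 1), b i j * z j ^ i)
    {A : ℝ} (hA : 0 < A) (hzX : ∀ᶠ j in (φ : Filter ℕ), HB P (X j ^ A) (z j))
    (hns : ¬ Slw P φ X z) : Spa P φ X Y := by
  obtain ⟨s1, s2, s3, -, s5, -, s7, s8, -⟩ := hSLW M S P φ X hS hX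
  obtain ⟨-, -, -, -, -, v6, -, v8, -⟩ := hSVB M
  obtain ⟨m1, m2, -, m4, -, m6, m7, m8, m9, -, m11, m12, -⟩ := hSPW M S P φ X hS hX
  have hX1 := hX.eventually_ge_atTop 1
  have hc0 : ∀ᶠ j in (φ : Filter ℕ), c j ≠ 0 := by
    filter_upwards [hz, hz0] with j h1 h2 h3
    exact h2 (by rw [h1, h3, zero_mul])
  have hci : Slw P φ X (fun j => (c j)⁻¹) := s3 _ hc
  have hmg : MU P φ X g := by
    refine m4 g 2 two_ne_zero hg ⟨?_, A + 1, by linarith, ?_⟩
    · filter_upwards [hg] with j hj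
      rw [sq]
      exact v6 S _ _ hj hj
    · have h1 : ∀ᶠ j in (φ : Filter ℕ), ∀ v ∈ plc S, ∀ σ : M ≃ₐ[ℚ] M,
          P.nv v (σ ((c j)⁻¹)) ≤ X j ^ (1 : ℝ) := by
        rw [Filter.eventually_all_finset]
        intro v hv
        rw [Filter.eventually_all]
        intro σ
        exact s5 _ hci v hv σ 1 one_pos
      filter_upwards [h1, hzX, hz, hc0, hX1] with j h2 h3 h4 h5 h6 v hv σ
      have h7 : g j ^ 2 = (c j)⁻¹ * z j := by
        rw [h4, ← mul_assoc, inv_mul_cancel₀ h5, one_mul]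
      rw [h7, map_mul, P.mul v hv]
      calc P.nv v (σ (c j)⁻¹) * P.nv v (σ (z j)) ≤ X j ^ (1 : ℝ) * X j ^ A :=
            mul_le_mul (h2 v hv σ) (h3 v hv σ) (P.nn _ _) (Real.rpow_nonneg (by linarith) _)
        _ = X j ^ (A + 1) := by
          rw [← Real.rpow_add (by linarith)]
          congr 1
          ring
  obtain ⟨e, q, p, p', R, G, he, hq, hp3, hp1, hp2, hp', hR, hYG⟩ :=
    sqrt_data hSLW hS hX D D b z Y hb hz0 hbD0 hY
  have hs : Slw P φ X (fun j => β j / g j ^ D) := by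
    refine s8 _ 2 two_ne_zero ?_
    have h1 : Slw P φ X (fun j => b D j * c j ^ D) :=
      (s2 _ _ (hb D) ((slA hSLW hS hX P).pow_mem (x := c) hc D)).2
    refine s7 _ _ ?_ h1
    filter_upwards [hg, hz, hβ] with j h2 h3 h4
    have h5 := h2.1
    have h6 : (g j ^ 2) ^ D = (g j ^ D) ^ 2 := by rw [← pow_mul, ← pow_mul, mul_comm 2 D]
    rw [div_pow, ← h4, h3, mul_pow, h6, ← mul_assoc,
      mul_div_cancel_right₀ _ (pow_ne_zero 2 (pow_ne_zero D h5))]
  have hβM : SpM P φ X β := by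
    refine (m12 _ _ ?_).1 (m8 _ _ (m6 _ hs) (m9 _ D (m7 _ hmg))).2
    filter_upwards [hg] with j hj
    rw [div_mul_cancel₀ _ (pow_ne_zero D hj.1)]
  have hzM : SpM P φ X z := by
    refine (m12 _ _ ?_).1 (m8 _ _ (m6 _ hc) (m9 _ 2 (m7 _ hmg))).2
    filter_upwards [hz] with j hj
    exact hj.symm
  have hqM : SpM P φ X q := by
    refine (m12 _ _ ?_).1 (m8 _ _ (m6 _ hci) (m9 _ 2 (m7 _ (m2 _ hmg)))).2
    filter_upwards [hz] with j hj
    rw [hq, hj, mul_inv, inv_pow]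
  have hpM : SpM P φ X p := by
    have h1 := spm_poly hSPW hS hX hqM e he (D + 1)
    have h2 : p = fun j => ∑ i ∈ range (D + 1), e i j * q j ^ i := funext hp3
    rw [h2]
    exact h1
  refine close hSLW hSPW hSVB hPRK hDEN hAV hSUB hINDK hS hX D b z Y (fun j => β j * p j) hb
    (m11 _ hzM) (m8 _ _ hβM hpM).2 hY hA hzX (fun δ hδ v hv σ hL => ?_) hns
  have h1 := big_est (s := β) (p := p) (Y := Y) hδ hz0 hq (hβ.mono fun j hj => hj.symm) hp1 hp2
    (by
      filter_upwards [hYG, hβ] with j h2 h3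
      rw [h2, h3]) hp' hR (hb D) hbD0 hv σ hL
  filter_upwards [h1] with j hj
  rw [hq] at hj
  exact hj

/-- several terms, even degree, the leading coefficient is a square -/
theorem even_spa (hSLW : ST_SLW) (hSPW : ST_SPW) (hSVB : ST_SVB) (hPRK : ST_PRK) (hDEN : ST_DEN)
    (hAV : ST_AV) (hSUB : ST_SUBTU) (hINDK : ST_INDK) (hS : ∀ p ∈ S, p.Prime)
    (hX : Tendsto X (φ : Filter ℕ) atTop) (m : ℕ) (b : ℕ → ℕ → M) (z Y β : ℕ → M)
    (hb : ∀ i, Slw P φ X (b i)) (hzM : SpM P φ X z) (hz0 : ∀ᶠ j in (φ : Filter ℕ), z j ≠ 0)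
    (hbD0 : ∀ᶠ j in (φ : Filter ℕ), b (2 * m) j ≠ 0)
    (hβ : ∀ᶠ j in (φ : Filter ℕ), b (2 * m) j = β j ^ 2)
    (hY : ∀ᶠ j in (φ : Filter ℕ), Y j ^ 2 = ∑ i ∈ range (2 * m + 1), b i j * z j ^ i)
    {A : ℝ} (hA : 0 < A) (hzX : ∀ᶠ j in (φ : Filter ℕ), HB P (X j ^ A) (z j))
    (hns : ¬ Slw P φ X z) : Spa P φ X Y := by
  obtain ⟨-, -, -, -, -, -, s7, s8, -⟩ := hSLW M S P φ X hS hX
  obtain ⟨-, -, -, -, -, m6, -, m8, -, -, m11, m12, -⟩ := hSPW M S P φ X hS hX
  obtain ⟨e, q, p, p', R, G, he, hq, hp3, hp1, hp2, hp', hR, hYG⟩ :=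
    sqrt_data hSLW hS hX (2 * m) m b z Y hb hz0 hbD0 hY
  have hβs : Slw P φ X β := s8 β 2 two_ne_zero (s7 _ _ hβ (hb (2 * m)))
  have hTM : SpM P φ X (fun j => β j * z j ^ m * p j) := by
    have h1 := spm_poly hSPW hS hX hzM (fun i => e (m - i)) (fun i => he _) (m + 1)
    refine (m12 _ _ ?_).1 (m8 _ _ (m6 _ hβs) h1).2
    filter_upwards [hz0] with j hj
    rw [mul_assoc]
    congr 1
    rw [hp3, Finset.mul_sum, ← Finset.sum_range_reflect (fun i => z j ^ m * (e i j * q j ^ i))]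
    refine Finset.sum_congr rfl fun i hi => ?_
    have hi' : i ≤ m := by
      have := Finset.mem_range.1 hi
      omega
    have e1 : m + 1 - 1 - i = m - i := by omega
    have e2 : z j ^ m = z j ^ i * z j ^ (m - i) := by
      rw [← pow_add]
      congr 1
      omega
    have e3 : z j ^ (m - i) * q j ^ (m - i) = 1 := by
      rw [hq, ← mul_pow, mul_inv_cancel₀ hj, one_pow]
    rw [e1, e2]
    linear_combination (-(e (m - i) j * z j ^ i)) * e3
  refine close hSLW hSPW hSVB hPRK hDEN hAV hSUB hINDK hS hX (2 * m) b z Y _ hb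
    (m11 _ hzM) hTM hY hA hzX (fun δ hδ v hv σ hL => ?_) hns
  have h1 := big_even (β := β) (p := p) (Y := Y) (bD := b (2 * m)) hδ hz0 hq
    (hβ.mono fun j hj => hj.symm) hp1 hp2 hYG hp' hR (hb _) hbD0 hv σ hL
  filter_upwards [h1] with j hj
  rw [hq] at hj
  exact hj

/-- the Taylor coefficients are slow -/
theorem taylor_slow (hSLW : ST_SLW) (hS : ∀ p ∈ S, p.Prime)
    (hX : Tendsto X (φ : Filter ℕ) atTop) {d : ℕ} {F : ℕ → M[X]} {e : ℕ → M}
    (hFd : ∀ᶠ j in (φ : Filter ℕ), (F j).natDegree = d)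
    (hFc : ∀ i : ℕ, Slw P φ X (fun j => (F j).coeff i)) (he : Slw P φ X e) (n : ℕ) :
    Slw P φ X (fun j => (taylor (e j) (F j)).coeff n) := by
  obtain ⟨s1, s2, -, -, -, -, s7, -, -, -, s11, -⟩ := hSLW M S P φ X hS hX
  have h1 : Slw P φ X (fun j => ∑ l ∈ range (d + 1),
      ((((l + n).choose n : ℕ) : M) * (F j).coeff (l + n)) * e j ^ l) := by
    refine (s11 ℕ (range (d + 1)) (fun l j =>
      ((((l + n).choose n : ℕ) : M) * (F j).coeff (l + n)) * e j ^ l) fun l _ => ?_).1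
    exact (s2 _ _ (s2 _ _ (s1 _) (hFc (l + n))).2
      ((slA hSLW hS hX P).pow_mem (x := e) he l)).2
  refine s7 _ _ ?_ h1
  filter_upwards [hFd] with j hj
  have h2 : (hasseDeriv n (F j)).natDegree < d + 1 := by
    have := natDegree_hasseDeriv_le (F j) n
    omega
  rw [taylor_coeff, eval_eq_sum_range' h2]
  refine Finset.sum_congr rfl fun l _ => ?_
  rw [hasseDeriv_coeff]

theorem spa_term (hSPW : ST_SPW) (hS : ∀ p ∈ S, p.Prime)
    (hX : Tendsto X (φ : Filter ℕ) atTop) {z c u : ℕ → M} (hc : Slw P φ X c)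
    (hu : ∀ᶠ j in (φ : Filter ℕ), SV S (u j)) (hz : ∀ᶠ j in (φ : Filter ℕ), z j = c j * u j) :
    Spa P φ X z := by
  obtain ⟨-, -, -, -, -, -, -, -, -, -, -, m12, m13⟩ := hSPW M S P φ X hS hX
  refine (m12 _ _ ?_).2 (m13 Unit (fun _ => c) (fun _ => u) (fun _ => hc) (fun _ => hu))
  filter_upwards [hz] with j h1
  rw [h1, Fintype.sum_unique]

/-- the three cases -/
def Cases (P : PF S M) (φ : Ultrafilter ℕ) (X : ℕ → ℝ) (d : ℕ) (F : ℕ → M[X])
    (x : ℕ → M) : Prop :=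
  (∃ β : ℕ → M, Even d ∧ Spa P φ X x ∧
    (∀ᶠ j in (φ : Filter ℕ), (F j).coeff d = β j ^ 2)) ∨
  (∃ (A : ℝ) (e z β : ℕ → M), Slw P φ X e ∧ Spa P φ X z ∧
    (∀ᶠ j in (φ : Filter ℕ), mulHeight₁ (z j) ≤ X j ^ A) ∧
    (∀ᶠ j in (φ : Filter ℕ), z j ≠ 0 ∧ x j = e j + (z j)⁻¹ ∧ (F j).eval (e j) ≠ 0 ∧
      (F j).eval (e j) = β j ^ 2)) ∨
  (∃ (A : ℝ) (e z c g β : ℕ → M), Slw P φ X e ∧ Slw P φ X c ∧
    (∀ᶠ j in (φ : Filter ℕ), SV S (g j)) ∧
    (∀ᶠ j in (φ : Filter ℕ), mulHeight₁ (z j) ≤ X j ^ A) ∧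
    (∀ᶠ j in (φ : Filter ℕ), z j ≠ 0 ∧ x j = e j + z j ∧ z j = c j * g j ^ 2 ∧
      (F j).coeff d * z j ^ d = β j ^ 2))

theorem mainT5 (hSLW : ST_SLW) (hSPW : ST_SPW) (hSVB : ST_SVB) (hPRK : ST_PRK)
    (hDEN : ST_DEN) (hAV : ST_AV) (hHSL : ST_HSL) (hHBM : ST_HBM)
    (hSUB : ST_SUBTU) (hINDK : ST_INDK) (hGEOL : ST_GEOL) (hS : ∀ p ∈ S, p.Prime)
    (hX : Tendsto X (φ : Filter ℕ) atTop) (d : ℕ) (hd : 5 ≤ d)
    (F : ℕ → M[X]) (x y : ℕ → M)
    (hFd : ∀ᶠ j in (φ : Filter ℕ), (F j).natDegree = d)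
    (hFs : ∀ᶠ j in (φ : Filter ℕ), (F j).Separable)
    (hFc : ∀ i : ℕ, Slw P φ X (fun j => (F j).coeff i))
    (hx0 : ∀ᶠ j in (φ : Filter ℕ), x j ≠ 0)
    (hxy : ∀ᶠ j in (φ : Filter ℕ), y j ^ 2 = (F j).eval (x j))
    (hxX : ∀ᶠ j in (φ : Filter ℕ), mulHeight₁ (x j) ≤ X j ^ (1 : ℝ))
    (hcases : Cases P φ X d F x) : Slw P φ X x := by
  obtain ⟨s1, s2, s3, -, -, -, s7, -⟩ := hSLW M S P φ X hS hX
  obtain ⟨-, -, -, -, v5, -, -, v8, -⟩ := hSVB M
  obtain ⟨-, -, -, -, -, m6, -, m8, m9, -, m11, m12, -⟩ := hSPW M S P φ X hS hX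
  have hX1 := hX.eventually_ge_atTop 1
  have hHB : ∀ (w : ℕ → M) (A : ℝ), (∀ᶠ j in (φ : Filter ℕ), mulHeight₁ (w j) ≤ X j ^ A) →
      ∀ᶠ j in (φ : Filter ℕ), HB P (X j ^ (max A 1)) (w j) := by
    intro w A hw
    filter_upwards [hw, hX1] with j h1 h2 v hv σ
    exact (hHBM M S P hS _ v hv σ).trans (h1.trans
      (Real.rpow_le_rpow_of_exponent_le h2 (le_max_left _ _)))
  have hpos : ∀ A : ℝ, 0 < max A 1 := fun A => lt_max_of_lt_right one_pos
  have hlead : ∀ᶠ j in (φ : Filter ℕ), (F j).coeff d ≠ 0 := by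
    filter_upwards [hFd] with j h1 h2
    have h3 : (F j).leadingCoeff = 0 := by
      rw [Polynomial.leadingCoeff, h1]
      exact h2
    rw [Polynomial.leadingCoeff_eq_zero] at h3
    rw [h3, Polynomial.natDegree_zero] at h1
    omega
  have hsp1 : Spa P φ X (fun _ => (1 : M)) := m11 _ (m6 _ (s1 1))
  rcases hcases with ⟨β, hde, hxS, hβ⟩ | ⟨A, e, z, β, he, hzS, hzA, hz⟩ |
    ⟨A, e, z, c, g, β, he, hc, hg, hzA, hz⟩
  · -- even degree, `x` a sum
    by_contra hns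
    obtain ⟨m, hm⟩ := hde
    have hm2 : d = 2 * m := by omega
    have hxM := spa_mod hSLW hHSL hHBM hSVB hINDK hS hX hxS hxX
    have hyS : Spa P φ X y := by
      refine even_spa hSLW hSPW hSVB hPRK hDEN hAV hSUB hINDK hS hX m
        (fun i j => (F j).coeff i) x y β hFc hxM hx0 ?_ ?_ ?_ (hpos 1) (hHB x 1 hxX) hns
      · rw [← hm2]
        exact hlead
      · rw [← hm2]
        exact hβ
      · filter_upwards [hxy, hFd] with j h1 h2
        rw [h1, Polynomial.eval_eq_sum_range' (n := 2 * m + 1) (by omega)]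
    have hmain := mainK hSLW hSVB hINDK hGEOL hS hX d hd F x (fun _ => 1) y (fun _ => 1) hFd hFs
      hFc hxS hsp1 hyS hsp1 (Filter.Eventually.of_forall fun _ => one_ne_zero)
      (Filter.Eventually.of_forall fun _ => one_ne_zero) (by
        filter_upwards [hxy] with j hj
        rw [div_one, div_one, hj])
    apply hns
    simpa only [div_one] using hmain
  · -- `x = e + 1 / z`
    by_contra hns
    have hnz : ¬ Slw P φ X z := by
      intro h
      apply hns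
      refine s7 _ _ ?_ (s2 _ _ he (s3 _ h)).1
      filter_upwards [hz] with j hj
      exact hj.2.1.symm
    obtain ⟨m, hm⟩ : ∃ m : ℕ, m = (d + 1) / 2 := ⟨_, rfl⟩
    have hzM := spa_mod hSLW hHSL hHBM hSVB hINDK hS hX hzS hzA
    have hYS : Spa P φ X (fun j => y j * z j ^ m) := by
      refine even_spa hSLW hSPW hSVB hPRK hDEN hAV hSUB hINDK hS hX m
        (fun i j => (taylor (e j) (F j)).coeff (2 * m - i)) z _ β
        (fun i => taylor_slow hSLW hS hX hFd hFc he _) hzM (hz.mono fun j hj => hj.1) ?_ ?_ ?_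
        (hpos A) (hHB z A hzA) hnz
      · filter_upwards [hz] with j hj
        rw [Nat.sub_self, taylor_coeff_zero]
        exact hj.2.2.1
      · filter_upwards [hz] with j hj
        rw [Nat.sub_self, taylor_coeff_zero]
        exact hj.2.2.2
      · filter_upwards [hxy, hFd, hz] with j h1 h2 h3
        have h4 : (F j).eval (x j) = (taylor (e j) (F j)).eval (z j)⁻¹ := by
          rw [taylor_eval, h3.2.1, add_comm]
        rw [mul_pow, h1, h4, Polynomial.eval_eq_sum_range' (n := 2 * m + 1)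
          (by rw [natDegree_taylor]; omega), ← pow_mul, mul_comm m 2, Finset.sum_mul,
          ← Finset.sum_range_reflect (fun i => (taylor (e j) (F j)).coeff i * (z j)⁻¹ ^ i *
            z j ^ (2 * m))]
        refine Finset.sum_congr rfl fun i hi => ?_
        have hi' : i ≤ 2 * m := by
          have := Finset.mem_range.1 hi
          omega
        have e1 : 2 * m + 1 - 1 - i = 2 * m - i := by omega
        have e2 : z j ^ (2 * m) = z j ^ (2 * m - i) * z j ^ i := by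
          rw [← pow_add]
          congr 1
          omega
        have e3 : (z j)⁻¹ ^ (2 * m - i) * z j ^ (2 * m - i) = 1 := by
          rw [← mul_pow, inv_mul_cancel₀ h3.1, one_pow]
        rw [e1, e2]
        linear_combination ((taylor (e j) (F j)).coeff (2 * m - i) * z j ^ i) * e3
    have hmain := mainK hSLW hSVB hINDK hGEOL hS hX d hd F (fun j => e j * z j + 1) z
      (fun j => y j * z j ^ m) (fun j => z j ^ m) hFd hFs
      hFc (m11 _ (m8 _ _ (m8 _ _ (m6 _ he) hzM).2 (m6 _ (s1 1))).1) hzS hYS (m11 _ (m9 _ m hzM))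
      (hz.mono fun j hj => hj.1) (hz.mono fun j hj => pow_ne_zero m hj.1) (by
        filter_upwards [hxy, hz] with j hj hj2
        rw [mul_div_cancel_right₀ _ (pow_ne_zero m hj2.1), hj, hj2.2.1, add_div,
          mul_div_cancel_right₀ _ hj2.1, one_div])
    apply hns
    refine s7 _ _ ?_ hmain
    filter_upwards [hz] with j hj
    rw [hj.2.1, add_div, mul_div_cancel_right₀ _ hj.1, one_div]
  · -- `x = e + c * g ^ 2`
    by_contra hns
    have hnz : ¬ Slw P φ X z := by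
      intro h
      apply hns
      refine s7 _ _ ?_ (s2 _ _ he h).1
      filter_upwards [hz] with j hj
      exact hj.2.1.symm
    have hyS : Spa P φ X y := by
      refine odd_spa hSLW hSPW hSVB hPRK hDEN hAV hSUB hINDK hS hX d
        (fun i j => (taylor (e j) (F j)).coeff i) z y c g β
        (fun i => taylor_slow hSLW hS hX hFd hFc he _) hc hg (hz.mono fun j hj => hj.2.2.1)
        (hz.mono fun j hj => hj.1) ?_ ?_ ?_ (hpos A) (hHB z A hzA) hnz
      · filter_upwards [hFd, hlead] with j h1 h2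
        have h3 := coeff_taylor_natDegree (e j) (F j)
        rw [h1] at h3
        rw [h3, Polynomial.leadingCoeff, h1]
        exact h2
      · filter_upwards [hFd, hz] with j h1 h2
        have h3 := coeff_taylor_natDegree (e j) (F j)
        rw [h1] at h3
        rw [h3, Polynomial.leadingCoeff, h1]
        exact h2.2.2.2
      · filter_upwards [hxy, hFd, hz] with j h1 h2 h3
        have h4 : (F j).eval (x j) = (taylor (e j) (F j)).eval (z j) := by
          rw [taylor_eval, h3.2.1, add_comm]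
        rw [h1, h4, Polynomial.eval_eq_sum_range' (n := d + 1) (by rw [natDegree_taylor]; omega)]
    have hzS : Spa P φ X z := by
      refine spa_term hSPW hS hX hc (u := fun j => g j ^ 2) ?_ (hz.mono fun j hj => hj.2.2.1)
      filter_upwards [hg] with j h1
      have h2 := v8 S (g j) ((2 : ℕ) : ℤ) h1
      rwa [zpow_natCast] at h2
    have hxS : Spa P φ X x := by
      have hzM := spa_mod hSLW hHSL hHBM hSVB hINDK hS hX hzS hzA
      refine (m12 _ _ ?_).2 (m11 _ (m8 _ _ (m6 _ he) hzM).1)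
      filter_upwards [hz] with j hj
      exact hj.2.1.symm
    have hmain := mainK hSLW hSVB hINDK hGEOL hS hX d hd F x (fun _ => 1) y (fun _ => 1) hFd hFs
      hFc hxS hsp1 hyS hsp1 (Filter.Eventually.of_forall fun _ => one_ne_zero)
      (Filter.Eventually.of_forall fun _ => one_ne_zero) (by
        filter_upwards [hxy] with j hj
        rw [div_one, div_one, hj])
    apply hns
    simpa only [div_one] using hmain

end

end Pool.Agent.Helper17.T4
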